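import Mathlib

/-!
# Basic definitions (symmetric version of project JQ)
-/

set_option autoImplicit false

namespace Pool.Agent.Q269.DX.Bs

open Finset
open scoped Classical

/-- the pairs of large indices -/
noncomputable def prs {ι : Type} [Fintype ι] [LinearOrder ι] (J1 : Finset ι) : Finset (ι × ι) :=
  univ.filter fun e => e.1 ∈ J1 ∧ e.2 ≠ e.1 ∧ (e.2 ∈ J1 → e.1 < e.2)

/-- the symmetric extension -/
noncomputable def ext {ι : Type} [Fintype ι] [LinearOrder ι] {J1 : Finset ι}
    (α : prs J1 → ZMod 2) (k l : ι) : ZMod 2 :=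
  if h : (k, l) ∈ prs J1 then α ⟨(k, l), h⟩
  else if h' : (l, k) ∈ prs J1 ∧ k ∈ J1 then α ⟨(l, k), h'.1⟩ else 0

/-- the value of a label at the sign: here always zero -/
def ze {s : Type} (_ : s → ZMod 2) (_ : s) : ZMod 2 := 0

theorem ze_add {s : Type} (φ ψ : s → ZMod 2) (t : s) : ze (φ + ψ) t = ze φ t + ze ψ t := by
  unfold ze; decide

end Pool.Agent.Q269.DX.Bs
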