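import Pool.Agent.Q269.DX.Dv

/-!
# Project DX: all the divisors; the largest exponent; the number of prime divisors
-/

set_option autoImplicit false
set_option linter.all false

open scoped Classical
open Finset Polynomial Filter Topology

namespace Pool.Agent.Q269.DX

open Pool.Agent.Q269.DX.Bs (prs ext ze)
open Pool.Agent.Q269.DX.JQ Pool.Agent.Q269.DX.LD
open Pool.Agent.Y164.PS (L Fam Sf mem_Sf)
open Pool.Agent.Y164.HG (Geo Del Tau QQ nb)
open Pool.Agent.Q269.GR (Dn mem_Dn' pr F2 S_PRD)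
open Pool.Agent.Q269.GJ (Ip)
open Pool.Agent.Q269.SX (kD sgD ex S_KDR kD_pow mem_of wt pcl sum_pcl)
open Pool.Agent.Q269.SL (law2)

section single

variable {k : Type} [Field k] [Fintype k] {R : Type} [Fintype R] {n : R → ℕ} {a : ∀ r, Fin (n r) → k[X]}
  {N : R → ℕ} (H : ∀ r, Geo (a r) (N r)) {D : k[X]} {m : ℕ}

/-- the divisors of `D` whose degree has the parity `c` -/
noncomputable def dva (c : ZMod 2) (D : k[X]) : Finset k[X] :=
  (univ : Finset (∀ r, Tau (a r) → ZMod 2)).biUnion fun σ => dvc H c σ D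

theorem mem_dva (hPRD : S_PRD) (hKDR : S_KDR) (hD : D ∈ Dn (∏ r, Del (a r)) m) (c : ZMod 2) (d : k[X]) :
    d ∈ dva H c D ↔ (d.Monic ∧ d ∣ D) ∧ ((d.natDegree : ℕ) : ZMod 2) = c := by
  unfold dva
  rw [mem_biUnion]
  constructor
  · rintro ⟨σ, -, h⟩
    rw [mem_dvc H hPRD hKDR hD] at h
    exact ⟨h.1, h.2.1⟩
  · rintro ⟨h1, h2⟩
    exact ⟨fun r s => sgD (H r) d s, mem_univ _, (mem_dvc H hPRD hKDR hD c _ d).2 ⟨h1, h2, fun _ _ => rfl⟩⟩

theorem dvc_disj (hPRD : S_PRD) (hKDR : S_KDR) (hD : D ∈ Dn (∏ r, Del (a r)) m) (c : ZMod 2) :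
    ((univ : Finset (∀ r, Tau (a r) → ZMod 2)) : Set (∀ r, Tau (a r) → ZMod 2)).PairwiseDisjoint
      fun σ => dvc H c σ D := by
  intro σ _ σ' _ hne
  rw [Function.onFun, disjoint_left]
  intro d h h'
  rw [mem_dvc H hPRD hKDR hD] at h h'
  apply hne
  funext r s
  rw [← h.2.2 r s, h'.2.2 r s]

theorem dva_sum (hPRD : S_PRD) (hKDR : S_KDR) (hD : D ∈ Dn (∏ r, Del (a r)) m) (c : ZMod 2) (g : k[X] → ℝ) :
    ∑ d ∈ dva H c D, g d = ∑ σ : ∀ r, Tau (a r) → ZMod 2, ∑ d ∈ dvc H c σ D, g d :=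
  sum_biUnion (dvc_disj H hPRD hKDR hD c)

theorem dva_card (hPRD : S_PRD) (hKDR : S_KDR) (hD : D ∈ Dn (∏ r, Del (a r)) m) (c : ZMod 2) :
    (dva H c D).card = ∑ σ : ∀ r, Tau (a r) → ZMod 2, (dvc H c σ D).card :=
  card_biUnion (dvc_disj H hPRD hKDR hD c)

theorem card_TQ : Fintype.card (Option (TQ a)) = 1 + ∑ r, Fintype.card (Tau (a r)) := by
  rw [Fintype.card_option, Fintype.card_sigma, add_comm]

theorem card_sg : Fintype.card (∀ r, Tau (a r) → ZMod 2) = 2 ^ ∑ r, Fintype.card (Tau (a r)) := by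
  rw [Fintype.card_pi, ← prod_pow_eq_pow_sum]
  refine prod_congr rfl fun r _ => ?_
  rw [← Nat.card_eq_fintype_card, Nat.card_fun, Nat.card_eq_fintype_card, Nat.card_eq_fintype_card, ZMod.card]

/-- the number of the elements of a class -/
theorem dvc_num (hCLN : S_CLN) (hPRD : S_PRD) (hD : D ∈ Dn (∏ r, Del (a r)) m) (hs : Spn (lbD a D)) (c : ZMod 2)
    (σ : ∀ r, Tau (a r) → ZMod 2) :
    (dvc H c σ D).card * 2 ^ (1 + ∑ r, Fintype.card (Tau (a r))) = 2 ^ Fintype.card (Ip D) := by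
  have h1 := om_card hCLN hs (rh H c σ)
  rw [dvc_card H hPRD hD, ← card_TQ]
  rw [Fintype.card_fin, one_mul, pow_one] at h1
  exact_mod_cast h1

/-- the number of all the divisors -/
theorem dva_num (hCLN : S_CLN) (hPRD : S_PRD) (hKDR : S_KDR) (hD : D ∈ Dn (∏ r, Del (a r)) m) (hs : Spn (lbD a D))
    (c : ZMod 2) (σ : ∀ r, Tau (a r) → ZMod 2) :
    (dva H c D).card = 2 ^ (∑ r, Fintype.card (Tau (a r))) * (dvc H c σ D).card := by
  have h1 : ∀ σ' ∈ (univ : Finset (∀ r, Tau (a r) → ZMod 2)), (dvc H c σ' D).card = (dvc H c σ D).card := by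
    intro σ' _
    have h2 := dvc_num H hCLN hPRD hD hs c σ
    have h3 := dvc_num H hCLN hPRD hD hs c σ'
    rw [← h2] at h3
    exact Nat.eq_of_mul_eq_mul_right (by positivity) h3
  rw [dva_card H hPRD hKDR hD, sum_congr rfl h1, sum_const, card_univ, card_sg, smul_eq_mul]

/-- **means over all the divisors** -/
theorem mean_dva (hCLN : S_CLN) (hPRD : S_PRD) (hKDR : S_KDR) {l : Filter k[X]} (hN : Nice H e1 l) (c : ZMod 2)
    (hc : ∀ r, c + (N r : ZMod 2) = 1) (f : (R → ℕ) → ℝ) (u : ℕ) (C : ℝ) (hf : ∀ x, |f x| ≤ C * wt u x) :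
    (Summable fun x : R → ℕ => f x * ∏ r, law2 (x r)) ∧
    Tendsto (fun D => (∑ d ∈ dva H c D, f (fun r => ex (H r) d)) / ((dva H c D).card : ℝ)) l
      (nhds (∑' x : R → ℕ, f x * ∏ r, law2 (x r))) := by
  obtain ⟨W, hW⟩ : ∃ W : ℝ, W = 2 ^ (∑ r, Fintype.card (Tau (a r))) := ⟨_, rfl⟩
  have hW0 : W ≠ 0 := by rw [hW]; positivity
  have h1 := fun σ => mean_dvc H hCLN hPRD hKDR hN c hc σ f u C hf
  have e1 : ∀ x : R → ℕ, ∑ σ : ∀ r, Tau (a r) → ZMod 2, f x * pcl a x σ = W * (f x * ∏ r, law2 (x r)) := by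
    intro x
    rw [← mul_sum, sum_pcl H, hW]
    ring
  have h2 : HasSum (fun x : R → ℕ => ∑ σ : ∀ r, Tau (a r) → ZMod 2, f x * pcl a x σ)
      (∑ σ : ∀ r, Tau (a r) → ZMod 2, ∑' x : R → ℕ, f x * pcl a x σ) :=
    hasSum_sum fun σ _ => (h1 σ).1.hasSum
  simp only [e1] at h2
  have h3 := h2.mul_left W⁻¹
  have e2 : (fun x : R → ℕ => W⁻¹ * (W * (f x * ∏ r, law2 (x r)))) = fun x => f x * ∏ r, law2 (x r) := by
    funext x
    rw [← mul_assoc, inv_mul_cancel₀ hW0, one_mul]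
  rw [e2] at h3
  refine ⟨h3.summable, ?_⟩
  rw [h3.tsum_eq, mul_sum]
  have h4 : Tendsto (fun D => ∑ σ : ∀ r, Tau (a r) → ZMod 2,
      W⁻¹ * ((∑ d ∈ dvc H c σ D, f (fun r => ex (H r) d)) / ((dvc H c σ D).card : ℝ))) l
      (nhds (∑ σ : ∀ r, Tau (a r) → ZMod 2, W⁻¹ * ∑' x : R → ℕ, f x * pcl a x σ)) :=
    tendsto_finsetSum _ fun σ _ => (h1 σ).2.const_mul _
  refine h4.congr' ?_
  filter_upwards [hN.mem, hN.spn] with D hD hs
  rw [dva_sum H hPRD hKDR hD, sum_div]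
  refine sum_congr rfl fun σ _ => ?_
  rw [dva_num H hCLN hPRD hKDR hD hs c σ]
  push_cast
  rw [← hW]
  field_simp

/-- **the largest exponent** -/
theorem max_dva (hCLN : S_CLN) (hPRD : S_PRD) (hKDR : S_KDR) {l : Filter k[X]} (hN : Nice H e1 l) (c : ZMod 2)
    (hc : ∀ r, c + (N r : ZMod 2) = 1) (hω : ∀ K : ℕ, ∀ᶠ D in l, K ≤ Fintype.card (Ip D)) (ε : ℝ) (hε : 0 < ε) :
    ∀ᶠ D in l, ∀ d ∈ dva H c D, ∀ r, (ex (H r) d : ℝ) ≤ ε * Fintype.card (Ip D) := by
  obtain ⟨h, hh⟩ := exists_nat_gt (2 / ε)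
  have hh0 : (0 : ℝ) < h := lt_trans (by positivity) hh
  have hA : ∀ σ : ∀ r, Tau (a r) → ZMod 2, Aok N e1 (rh H c σ) := by
    intro σ j r
    rw [lbf_e1]
    exact hc r
  have h1 := fun σ => wt_avg hN hCLN hPRD hKDR (hA σ) h
  choose B hB0 hB using h1
  have h2 : ∀ᶠ D in l, ∀ σ ∈ (univ : Finset (∀ r, Tau (a r) → ZMod 2)),
      ∑ τ ∈ Om a (rh H c σ) D, wt h (xe H e1 τ) ≤ B σ * ((Om a (rh H c σ) D).card : ℝ) := by
    rw [eventually_all_finset]
    exact fun σ _ => hB σ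
  obtain ⟨K, hK⟩ := exists_nat_gt (∑ σ, B σ)
  have hK2 : ∀ σ, B σ ≤ 2 ^ K := by
    intro σ
    have g1 : B σ ≤ ∑ σ, B σ := single_le_sum (fun σ _ => hB0 σ) (mem_univ σ)
    have g2 : (K : ℝ) ≤ 2 ^ K := by exact_mod_cast (Nat.lt_two_pow_self (n := K)).le
    linarith
  filter_upwards [h2, hN.mem, hN.spn, hω K] with D g1 hD hs hK3 d hd r
  unfold dva at hd
  obtain ⟨σ, -, hd⟩ := mem_biUnion.1 hd
  unfold dvc at hd
  obtain ⟨τ, hτ, rfl⟩ := mem_image.1 hd
  have g2 : wt h (xe H e1 τ) ≤ B σ * ((Om a (rh H c σ) D).card : ℝ) :=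
    (single_le_sum (f := fun τ => wt h (xe H e1 τ)) (fun τ _ => zero_le_one.trans (Pool.Agent.Q269.SX.one_le_wt _ _)) hτ).trans
      (g1 σ (mem_univ _))
  have g3 : ((2 : ℝ) ^ h) ^ ex (H r) (D1 D τ) ≤ wt h (xe H e1 τ) := by
    unfold wt
    rw [← mul_prod_erase univ (fun y => ((2 : ℝ) ^ h) ^ xe H e1 τ y) (mem_univ ((0 : Fin 1), r))]
    refine le_mul_of_one_le_right (by positivity) ?_
    calc (1 : ℝ) = ∏ _s ∈ univ.erase ((0 : Fin 1), r), (1 : ℝ) := by rw [prod_const_one]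
      _ ≤ ∏ s ∈ univ.erase ((0 : Fin 1), r), ((2 : ℝ) ^ h) ^ xe H e1 τ s :=
        prod_le_prod (fun _ _ => zero_le_one) fun s _ => one_le_pow₀ (one_le_pow₀ (by norm_num))
  have g4 : ((Om a (rh H c σ) D).card : ℝ) ≤ 2 ^ Fintype.card (Ip D) := by
    have g5 := om_card hCLN hs (rh H c σ)
    rw [Fintype.card_fin, one_mul, pow_one] at g5
    rw [← g5]
    exact le_mul_of_one_le_right (Nat.cast_nonneg _) (one_le_pow₀ (by norm_num))
  have g6 : ((2 : ℝ)) ^ (h * ex (H r) (D1 D τ)) ≤ 2 ^ (K + Fintype.card (Ip D)) := by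
    rw [pow_mul, pow_add]
    refine g3.trans (g2.trans ?_)
    exact mul_le_mul (hK2 σ) g4 (Nat.cast_nonneg _) (by positivity)
  have g7 : h * ex (H r) (D1 D τ) ≤ K + Fintype.card (Ip D) :=
    (pow_le_pow_iff_right₀ (by norm_num : (1 : ℝ) < 2)).1 g6
  have g8 : (h : ℝ) * ex (H r) (D1 D τ) ≤ 2 * Fintype.card (Ip D) := by
    have g9 : h * ex (H r) (D1 D τ) ≤ 2 * Fintype.card (Ip D) := by omega
    exact_mod_cast g9
  have g10 : 2 < ε * h := by
    rw [div_lt_iff₀ hε] at hh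
    linarith
  have g11 : (0 : ℝ) ≤ ex (H r) (D1 D τ) := Nat.cast_nonneg _
  by_contra hno
  push Not at hno
  have g12 : (h : ℝ) * (ε * Fintype.card (Ip D)) < h * ex (H r) (D1 D τ) := mul_lt_mul_of_pos_left hno hh0
  have g13 : (0 : ℝ) ≤ Fintype.card (Ip D) := Nat.cast_nonneg _
  nlinarith

end single

/-! ### the number of prime divisors -/

section omega

theorem sub_card {α : Type} {s t : Finset α} {p q : α → Prop} {i1 : DecidablePred p} {i2 : DecidablePred q}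
    (h : ∀ x ∈ s, p x → x ∈ t ∧ q x) : (@Finset.filter α p i1 s).card ≤ (@Finset.filter α q i2 t).card := by
  refine card_le_card fun x hx => ?_
  rw [mem_filter] at hx ⊢
  exact h x hx.1 hx.2

theorem or_card {α : Type} {s : Finset α} {p q r : α → Prop} {i1 : DecidablePred p} {i2 : DecidablePred q}
    {i3 : DecidablePred r} (h : ∀ x ∈ s, p x → q x ∨ r x) :
    ((@Finset.filter α p i1 s).card : ℝ) ≤ (@Finset.filter α q i2 s).card + (@Finset.filter α r i3 s).card := by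
  have h1 : (@Finset.filter α p i1 s) ⊆ (@Finset.filter α q i2 s) ∪ (@Finset.filter α r i3 s) := by
    intro x hx
    rw [mem_filter] at hx
    rw [mem_union, mem_filter, mem_filter]
    rcases h x hx.1 hx.2 with g | g
    · exact Or.inl ⟨hx.1, g⟩
    · exact Or.inr ⟨hx.1, g⟩
  exact_mod_cast (card_le_card h1).trans (card_union_le _ _)

/-- almost all polynomials have many prime divisors -/
theorem t_OMG (hANA : S_ANA) {k : Type} [Field k] [Fintype k] (hk : ringChar k ≠ 2) (hm : IsSquare (-1 : k)) (K : ℕ)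
    (ε : ℝ) (hε : 0 < ε) : ∀ᶠ m : ℕ in atTop,
    (((Dn (1 : k[X]) m).filter fun D => (pr D).card < K).card : ℝ) ≤ ε * (Fintype.card k : ℝ) ^ m := by
  have hcard : 4 ≤ Fintype.card k := by
    have h1 := FiniteField.isSquare_neg_one_iff.1 hm
    have h2 := FiniteField.odd_card_of_char_ne_two hk
    have h3 := Fintype.one_lt_card (α := k)
    omega
  have key := hANA PEmpty none (fun U J _ _ _ b _ => Fintype.card U + Fintype.card J < K) ?_ k hk hm hcard
    (fun x : PEmpty => x.elim) ⟨fun x => x.elim, fun x => x.elim, fun x => x.elim⟩ (fun D => (pr D).card < K) ?_ ε hε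
  · filter_upwards [key] with m hm'
    refine le_trans ?_ hm'
    refine Nat.cast_le.2 (sub_card fun D h1 h2 => ?_)
    have h3 := mem_one.1 h1
    exact ⟨mem_Sf.2 ⟨h3.1.1, h3.1.2, h3.2⟩, fun x => x.elim, h2⟩
  · intro δ hδ
    refine ⟨0, K, fun U J _ _ _ b hb => ?_⟩
    have h1 := hb.many 0
    rw [zero_mul, zero_add] at h1
    have h2 : ¬ (Fintype.card U + Fintype.card J < K) := by
      have h3 := h1.trans (card_le_univ _)
      omega
    have h5 : Nat.card {α : prs (univ : Finset J) → ZMod 2 // Fintype.card U + Fintype.card J < K} = 0 := by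
      haveI : IsEmpty {α : prs (univ : Finset J) → ZMod 2 // Fintype.card U + Fintype.card J < K} := ⟨fun x => h2 x.2⟩
      exact Nat.card_of_isEmpty
    rw [h5, Nat.cast_zero]
    positivity
  · intro m T lg hF hG
    have hD0 : (∏ i, T i) ≠ 0 := prod_ne_zero_iff.2 fun i _ => (hF.mon (Sum.inl i)).ne_zero
    have h1 : m ≤ (pr (∏ i, T i)).card := by
      have h2 : (univ.image T) ⊆ pr (∏ i, T i) := by
        intro P hP
        obtain ⟨i, -, rfl⟩ := mem_image.1 hP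
        rw [pr, Multiset.mem_toFinset, Polynomial.mem_normalizedFactors_iff hD0]
        exact ⟨hF.irr (Sum.inl i), hF.mon (Sum.inl i), dvd_prod_of_mem T (mem_univ i)⟩
      have h3 := card_le_card h2
      have hTi : Function.Injective T :=
        fun x y h => Sum.inl_injective (hF.inj (a₁ := Sum.inl x) (a₂ := Sum.inl y) h)
      rw [card_image_of_injective _ hTi, card_univ, Fintype.card_fin] at h3
      exact h3
    show Fintype.card {i // i ∉ lg} + Fintype.card {i // i ∈ lg} < K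
    have h4 : Fintype.card {i // i ∉ lg} + Fintype.card {i // i ∈ lg} = m := by
      rw [add_comm, ← Fintype.card_sum]
      have := Fintype.card_congr (Equiv.sumCompl fun i => i ∈ lg)
      rw [Fintype.card_fin] at this
      exact this
    omega

theorem nice_mono {k : Type} [Field k] [Fintype k] {R : Type} [Fintype R] {n : R → ℕ} {a : ∀ r, Fin (n r) → k[X]}
    {N : R → ℕ} {H : ∀ r, Geo (a r) (N r)} {M J : Type} [Fintype M] [Fintype J] {e : J → M → ZMod 2}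
    {l l' : Filter k[X]} (h : l' ≤ l) (hN : Nice H e l) : Nice H e l' :=
  ⟨hN.mem.filter_mono h, hN.spn.filter_mono h, fun ρ hρ μ ε hε => (hN.mom ρ hρ μ ε hε).filter_mono h⟩

/-- **one set for all families, with many prime divisors** -/
theorem one_setW (hANA : S_ANA) (hINN : S_INN) (hSPN : S_SPN) (hPRD : S_PRD) {k : Type} [Field k] [Fintype k]
    (hk : ringChar k ≠ 2) (hm : IsSquare (-1 : k)) :
    ∃ S : k[X] → Prop, (∀ ε : ℝ, 0 < ε → ∀ᶠ m : ℕ in atTop,
      (((Dn (1 : k[X]) m).filter fun D => ¬ S D).card : ℝ) ≤ ε * (Fintype.card k : ℝ) ^ m) ∧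
      (∀ K : ℕ, ∀ᶠ D in lS S, K ≤ (pr D).card) ∧
      ∀ (l : ℕ) (n : Fin l → ℕ) (a : ∀ r, Fin (n r) → k[X]) (N : Fin l → ℕ) (H : ∀ r, Geo (a r) (N r)),
        (∀ r r', r ≠ r' → IsCoprime (Del (a r)) (Del (a r'))) → ∀ (m' j' : ℕ) (e : Fin j' → Fin m' → ZMod 2),
        Function.Injective e → (∀ j, e j ≠ 0) → Nice H e (Filter.map (dp (∏ r, Del (a r))) (lS S)) := by
  obtain ⟨S, hS1, hS2⟩ := one_setX hINN hSPN hPRD hk hm
  obtain ⟨S', hS1', hS2'⟩ := one_set (fun m => Dn (1 : k[X]) m) (fun m => (Fintype.card k : ℝ) ^ m)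
    (fun m => by positivity) natDegree (fun m D hD => (mem_Dn'.1 hD).1.2) (fun K D => (pr D).card < K)
    (fun K ε hε => by
      filter_upwards [t_OMG hANA hk hm K ε hε] with m h
      refine le_trans (le_of_eq ?_) h
      congr 1
      exact Pool.Agent.Q269.SX.Lv.fil_card _ _ _ _ _ fun D => Iff.rfl)
  refine ⟨fun D => S D ∧ S' D, ?_, ?_, ?_⟩
  · intro ε hε
    filter_upwards [hS1 (ε / 2) (half_pos hε), hS1' (ε / 2) (half_pos hε)] with m h1 h2
    refine (or_card (q := fun D => ¬ S D) (r := fun D => ¬ S' D) fun D _ hD => ?_).trans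
      ((add_le_add h1 h2).trans (le_of_eq (by ring)))
    by_cases h : S D
    · exact Or.inr fun h' => hD ⟨h, h'⟩
    · exact Or.inl h
  · intro K
    obtain ⟨m0, h1⟩ := hS2' K
    rw [lS, eventually_inf_principal]
    filter_upwards [(eventually_ge_atTop m0).comap natDegree] with D h3 h4
    have := h1 D h3 h4.2.2
    omega
  · intro l n a N H hcop m' j' e hei he0
    refine nice_mono (map_mono ?_) (hS2 l n a N H hcop m' j' e hei he0)
    exact inf_le_inf_left _ (principal_mono.2 fun D hD => ⟨hD.1, hD.2.1⟩)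

end omega

end Pool.Agent.Q269.DX
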