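import Pool.Agent.Q269.DX.Cv
import Pool.Agent.Q269.SX.Asm
import Pool.Agent.Q153.DX.OKD
import Pool.Agent.Q38.DX.SLJ
import Pool.Agent.Q26.DX.ADJ
import Pool.Agent.Q162.DX.TAB
import Pool.Agent.Q192.DX.CEL
import Pool.Agent.Q129.DX.ANA
import Pool.Agent.Q275.DX.INN
import Pool.Agent.Q265.DX.SPN
import Pool.Agent.Q265.DX.CLN
import Pool.Agent.Q64.DX.REG
import Pool.Agent.Q214.DX.TYP

/-!
# Project DX: assembly

The module and the author of the proof of each statement can be read off from this file.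
-/

set_option autoImplicit false

namespace Pool.Agent.Q269.DX.Asm

open Pool.Agent.Q269.DX Pool.Agent.Q269.GR.Asm

theorem e_OKD : S_OKD := Pool.Agent.Q153.DX.t_OKD
theorem e_SLJ : S_SLJ := Pool.Agent.Q38.DX.t_SLJ Pool.Agent.Q269.SX.Asm.d_CNT
theorem e_ADJ : S_ADJ := Pool.Agent.Q26.DX.t_ADJ
theorem e_TAB : S_TAB := Pool.Agent.Q162.DX.t_TAB
theorem e_REG : S_REG := Pool.Agent.Q64.DX.t_REG
theorem e_CEL : S_CEL := Pool.Agent.Q192.DX.t_CEL e_TAB e_REG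
theorem e_TYP : S_TYP := Pool.Agent.Q214.DX.t_TYP
theorem e_ANA : S_ANA := Pool.Agent.Q129.DX.t_ANA e_CEL e_TYP
theorem e_INN : S_INN := Pool.Agent.Q275.DX.t_INN e_ANA e_OKD e_SLJ e_ADJ Pool.Agent.Q269.SX.Asm.d_KDR
theorem e_SPN : S_SPN := Pool.Agent.Q265.DX.t_SPN e_ANA
theorem e_CLN : S_CLN := Pool.Agent.Q265.DX.t_CLN

end Pool.Agent.Q269.DX.Asm
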