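import Pool.Agent.Q269.DX.St
import Pool.Agent.Q269.SX.Avg

/-!
# Project DX: divisors, labels and parities
-/

set_option autoImplicit false
set_option linter.all false

open scoped Classical
open Finset Polynomial Filter Topology

namespace Pool.Agent.Q269.DX

open Pool.Agent.Q269.DX.JQ Pool.Agent.Q269.DX.LD
open Pool.Agent.Y164.PS (L Fam)
open Pool.Agent.Y164.HG (Geo Del Tau QQ EW AT BT kc)
open Pool.Agent.Q269.GR (Dn mem_Dn' pr F2)
open Pool.Agent.Q269.GJ (Ip)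
open Pool.Agent.Q269.SX (kD sgD ex S_KDR kD_pow mem_of)

section lbs

variable {s P N M : Type} [Fintype P] [Fintype N]

theorem lbs_apply (h : P → s → ZMod 2) (τ : P → N → ZMod 2) (i : N) (t : s) :
    lbs h τ i t = ∑ p, τ p i * h p t := by
  unfold lbs
  rw [Finset.sum_apply]
  exact sum_congr rfl fun p _ => by rw [Pi.smul_apply, smul_eq_mul]

theorem lbf_apply (e : M → N → ZMod 2) (ρ : N → s → ZMod 2) (m : M) (t : s) :
    lbf e ρ m t = ∑ i, e m i * ρ i t := by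
  unfold lbf
  rw [Finset.sum_apply]
  exact sum_congr rfl fun p _ => by rw [Pi.smul_apply, smul_eq_mul]

/-- the label of a combination of divisors -/
theorem lbf_lbs (e : M → N → ZMod 2) (h : P → s → ZMod 2) (τ : P → N → ZMod 2) (m : M) (t : s) :
    lbf e (lbs h τ) m t = ∑ p, if ∑ i, e m i * τ p i = 0 then 0 else h p t := by
  rw [lbf_apply]
  simp only [lbs_apply, mul_sum]
  rw [sum_comm]
  refine sum_congr rfl fun p _ => ?_
  have h2 : ∀ x : ZMod 2, x ≠ 0 → x = 1 := by decide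
  have h3 : ∑ i, e m i * (τ p i * h p t) = (∑ i, e m i * τ p i) * h p t := by
    rw [sum_mul]
    exact sum_congr rfl fun i _ => by ring
  rw [h3]
  split_ifs with h4
  · rw [h4, zero_mul]
  · rw [h2 _ h4, one_mul]

end lbs

section dv

variable {k : Type} [Field k] [Fintype k] {Δ D : k[X]} {m : ℕ} {M : Type} [Fintype M]

theorem mem_Dn_deg (hD : D ∈ Dn Δ m) : D.natDegree = m := (mem_Dn'.1 hD).1.2

theorem del_ne (hD : D ∈ Dn Δ m) (h1 : D.natDegree ≠ 0 ∨ Δ ≠ 0) : Δ ≠ 0 := by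
  rcases h1 with h1 | h1
  · rintro rfl
    have h2 := (mem_Dn'.1 hD).2.2
    rw [isCoprime_zero_right] at h2
    exact h1 (natDegree_eq_zero_of_isUnit h2)
  · exact h1

theorem ip_prod (hPRD : Pool.Agent.Q269.GR.S_PRD) (hΔ : Δ ≠ 0) (hD : D ∈ Dn Δ m) : ∏ P : Ip D, P.1 = D := by
  have h := ((hPRD k Δ hΔ).2.1 m D hD).1
  conv_rhs => rw [← h]
  exact prod_coe_sort (pr D) fun P => P

theorem ip_mem (hPRD : Pool.Agent.Q269.GR.S_PRD) (hΔ : Δ ≠ 0) (hD : D ∈ Dn Δ m) (P : Ip D) :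
    P.1.Monic ∧ Irreducible P.1 ∧ P.1 ∣ D := (((hPRD k Δ hΔ).2.1 m D hD).2.2 P.1).1 P.2

theorem dv_dvd (hPRD : Pool.Agent.Q269.GR.S_PRD) (hΔ : Δ ≠ 0) (hD : D ∈ Dn Δ m) (e : M → ZMod 2)
    (τ : Ip D → M → ZMod 2) : dv e τ ∣ D := by
  have h1 : dv e τ ∣ ∏ P : Ip D, P.1 := by
    unfold dv
    refine prod_dvd_prod_of_dvd _ _ fun P _ => ?_
    split_ifs
    · exact one_dvd _
    · exact dvd_rfl
  rwa [ip_prod hPRD hΔ hD] at h1

theorem dv_monic (hPRD : Pool.Agent.Q269.GR.S_PRD) (hΔ : Δ ≠ 0) (hD : D ∈ Dn Δ m) (e : M → ZMod 2)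
    (τ : Ip D → M → ZMod 2) : (dv e τ).Monic := by
  unfold dv
  refine monic_prod_of_monic _ _ fun P _ => ?_
  split_ifs
  · exact monic_one
  · exact (ip_mem hPRD hΔ hD P).1

theorem dv_mem (hPRD : Pool.Agent.Q269.GR.S_PRD) (hΔ : Δ ≠ 0) (hD : D ∈ Dn Δ m) (e : M → ZMod 2)
    (τ : Ip D → M → ZMod 2) : dv e τ ∈ Dn Δ (dv e τ).natDegree := by
  have h := mem_Dn'.1 hD
  have h1 := dv_dvd hPRD hΔ hD e τ
  exact mem_Dn'.2 ⟨⟨dv_monic hPRD hΔ hD e τ, rfl⟩, h.2.1.squarefree_of_dvd h1, h.2.2.of_isCoprime_of_dvd_left h1⟩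

theorem dv_deg (hPRD : Pool.Agent.Q269.GR.S_PRD) (hΔ : Δ ≠ 0) (hD : D ∈ Dn Δ m) (e : M → ZMod 2)
    (τ : Ip D → M → ZMod 2) : (((dv e τ).natDegree : ℕ) : ZMod 2) =
      ∑ P : Ip D, if ∑ i, e i * τ P i = 0 then 0 else ((P.1.natDegree : ℕ) : ZMod 2) := by
  unfold dv
  rw [natDegree_prod_of_monic]
  · push_cast
    refine sum_congr rfl fun P _ => ?_
    split_ifs
    · rw [natDegree_one, Nat.cast_zero]
    · rfl
  · intro P _
    split_ifs
    · exact monic_one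
    · exact (ip_mem hPRD hΔ hD P).1

end dv

theorem prod_not {α β : Type} [Fintype α] [CommMonoid β] (p : α → Prop) (d : DecidablePred p) (i : Fintype {x // ¬ p x}) (f : α → β) :
    ∏ x : {x // ¬ p x}, f x.1 = ∏ x, if p x then 1 else f x := by
  rw [← Finset.prod_subtype (univ.filter fun x => ¬ p x) (by simp) f, prod_filter]
  exact prod_congr rfl fun x _ => by by_cases h : p x <;> simp [h]

theorem sum_not {α β : Type} [Fintype α] [AddCommMonoid β] (p : α → Prop) (d : DecidablePred p) (i : Fintype {x // ¬ p x}) (f : α → β) :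
    ∑ x : {x // ¬ p x}, f x.1 = ∑ x, if p x then 0 else f x := by
  rw [← Finset.sum_subtype (univ.filter fun x => ¬ p x) (by simp) f, sum_filter]
  exact sum_congr rfl fun x _ => by by_cases h : p x <;> simp [h]

section fam

variable {k : Type} [Field k] [Fintype k] {R : Type} [Fintype R] {n : R → ℕ} {a : ∀ r, Fin (n r) → k[X]}
  {N : R → ℕ} (H : ∀ r, Geo (a r) (N r)) {M J : Type} [Fintype M] {D : k[X]} {m : ℕ}

include H in
theorem prd_ne : (∏ r, Del (a r)) ≠ 0 := prod_ne_zero_iff.2 fun r _ => (H r).del_ne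

/-- the class of a combination of divisors -/
theorem sgD_dv (hPRD : Pool.Agent.Q269.GR.S_PRD) (hKDR : S_KDR) (hD : D ∈ Dn (∏ r, Del (a r)) m) (e : M → ZMod 2)
    (τ : Ip D → M → ZMod 2) (r : R) (s : Tau (a r)) : sgD (H r) (dv e τ) s =
      (∑ P : Ip D, if ∑ i, e i * τ P i = 0 then 0 else L P.1 (QQ (a r) s)) + (H r).comb.gg s := by
  haveI : Fact (Odd (n r)) := ⟨(H r).hn⟩
  have hDr := mem_of hD r
  obtain ⟨hF, -, -⟩ := (hKDR k (n r) (a r) (N r) (H r)).2 m D hDr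
  obtain ⟨T, hT⟩ : ∃ T : {P : Ip D // ¬ ∑ i, e i * τ P i = 0} → k[X], T = fun P => P.1.1 := ⟨_, rfl⟩
  have hF' : Fam (Sum.elim T (QQ (a r))) := by
    rw [hT]
    refine ⟨?_, ?_, ?_⟩
    · rintro (x | x)
      · exact hF.mon (Sum.inl x.1)
      · exact hF.mon (Sum.inr x)
    · rintro (x | x)
      · exact hF.irr (Sum.inl x.1)
      · exact hF.irr (Sum.inr x)
    · rintro (x | x) (y | y) h
      · exact congrArg Sum.inl (Subtype.ext (Sum.inl_injective (hF.inj (a₁ := Sum.inl x.1) (a₂ := Sum.inl y.1) h)))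
      · exact absurd (hF.inj (a₁ := Sum.inl x.1) (a₂ := Sum.inr y) h) (by simp)
      · exact absurd (hF.inj (a₁ := Sum.inr x) (a₂ := Sum.inl y.1) h) (by simp)
      · exact congrArg Sum.inr (Sum.inr_injective (hF.inj (a₁ := Sum.inr x) (a₂ := Sum.inr y) h))
  have h1 := ((hKDR k (n r) (a r) (N r) (H r)).1 _ T hF').2.1 s
  have h2 : ∏ i, T i = dv e τ := by
    rw [hT]
    unfold dv
    exact prod_not (fun P : Ip D => ∑ i, e i * τ P i = 0) _ _ (fun P => P.1)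
  rw [← h2, h1]
  congr 1
  rw [hT]
  unfold BT
  exact sum_not (fun P : Ip D => ∑ i, e i * τ P i = 0) _ _ (fun P => L P.1 (QQ (a r) s))

/-- the parity attached to a label -/
noncomputable def cR (φ : Option (TQ a) → ZMod 2) (r : R) : ZMod 2 :=
  (Fintype.card (Tau (a r)) : ZMod 2) + ∑ s, (φ (some ⟨r, s⟩) + (H r).comb.gg s)

/-- the parity of the exponent -/
theorem ex_dv (hPRD : Pool.Agent.Q269.GR.S_PRD) (hKDR : S_KDR) (hD : D ∈ Dn (∏ r, Del (a r)) m) (e : J → M → ZMod 2)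
    (τ : Ip D → M → ZMod 2) (j : J) (r : R) (hj : lbf e (lbs (lbD a D) τ) j none + (N r : ZMod 2) = 1) :
    kD (H r) (dv (e j) τ) = 2 ^ ex (H r) (dv (e j) τ) ∧
      ((ex (H r) (dv (e j) τ) : ℕ) : ZMod 2) = cR H (lbf e (lbs (lbD a D) τ) j) r := by
  have hΔ := prd_ne H
  have h1 := dv_mem hPRD hΔ hD (e j) τ
  have h2 : Odd ((dv (e j) τ).natDegree + N r) := by
    rw [← ZMod.natCast_eq_one_iff_odd, Nat.cast_add, dv_deg hPRD hΔ hD]
    rw [lbf_lbs] at hj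
    exact hj
  obtain ⟨h3, h4⟩ := kD_pow (H r) hKDR h2 (mem_of h1 r)
  refine ⟨h3, ?_⟩
  rw [h4]
  unfold cR
  congr 1
  refine sum_congr rfl fun s _ => ?_
  rw [sgD_dv H hPRD hKDR hD, lbf_lbs]
  rfl

end fam

end Pool.Agent.Q269.DX
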