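import Pool.Agent.Q269.DX.Cr1
import Pool.Agent.Q81.JQ.MOM

/-!
# Project DX: from the moments to the law inside the divisors
-/

set_option autoImplicit false
set_option linter.all false

open scoped Classical
open Finset Polynomial Filter Topology

namespace Pool.Agent.Q269.DX

open Pool.Agent.Q269.DX.JQ Pool.Agent.Q269.DX.LD
open Pool.Agent.Y164.PS (L Fam)
open Pool.Agent.Y164.HG (Geo Del Tau QQ EW AT BT kc)
open Pool.Agent.Q269.GR (Dn mem_Dn' pr F2)
open Pool.Agent.Q269.GJ (Ip)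
open Pool.Agent.Q269.SX (kD sgD ex S_KDR kD_pow mem_of wt one_le_wt wt_fin wt_sq expect hasSum_prod mom_lawc)
open Pool.Agent.Q269.SL (lawc_nonneg)

theorem mom : S_MOM := fun κ _ c r η hη => Pool.Agent.Q81.JQ.t_MOM κ c r η hη

theorem lawc_sl (c : ZMod 2) (e : ℕ) : JQ.lawc c e = Pool.Agent.Q269.SL.lawc c e := by
  rw [Pool.Agent.Q269.SL.lawc_eq]
  rfl

/-- the factorial moment -/
noncomputable def P0 (h e : ℕ) : ℝ := ∏ i ∈ range h, ((2 : ℝ) ^ e - 2 ^ i)

theorem P0_bd (h e : ℕ) : 0 ≤ P0 h e ∧ ((2 : ℝ) ^ h) ^ e ≤ 2 ^ h * P0 h e + 2 ^ (h * h) := by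
  unfold P0
  rcases lt_or_ge e h with h1 | h1
  · have h2 : ∏ i ∈ range h, ((2 : ℝ) ^ e - 2 ^ i) = 0 := prod_eq_zero (mem_range.2 h1) (sub_self _)
    rw [h2]
    refine ⟨le_rfl, ?_⟩
    rw [mul_zero, zero_add, ← pow_mul]
    exact pow_le_pow_right₀ (by norm_num) (Nat.mul_le_mul_left h h1.le)
  · have h2 : ∀ i ∈ range h, (2 : ℝ) ^ e / 2 ≤ 2 ^ e - 2 ^ i := by
      intro i hi
      have h3 : i + 1 ≤ e := by
        have := mem_range.1 hi
        omega
      have h4 : (2 : ℝ) ^ (i + 1) ≤ 2 ^ e := pow_le_pow_right₀ (by norm_num) h3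
      rw [pow_succ] at h4
      linarith
    have h3 : ∏ i ∈ range h, ((2 : ℝ) ^ e / 2) ≤ ∏ i ∈ range h, ((2 : ℝ) ^ e - 2 ^ i) :=
      prod_le_prod (fun i _ => by positivity) h2
    rw [prod_const, card_range, div_pow] at h3
    refine ⟨le_trans (by positivity) h3, ?_⟩
    have h4 : (2 : ℝ) ^ h * ((2 ^ e) ^ h / 2 ^ h) = (2 ^ h) ^ e := by
      rw [mul_div_cancel₀ _ (by positivity), ← pow_mul, ← pow_mul, mul_comm]
    have h5 := mul_le_mul_of_nonneg_left h3 (show (0 : ℝ) ≤ 2 ^ h by positivity)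
    rw [h4] at h5
    have : (0 : ℝ) ≤ 2 ^ (h * h) := by positivity
    linarith

theorem wt_bd {κ : Type} [Fintype κ] [DecidableEq κ] (h : ℕ) (x : κ → ℕ) :
    wt h x ≤ ∑ T ∈ (univ : Finset κ).powerset, ((2 : ℝ) ^ h) ^ T.card * (2 ^ (h * h)) ^ (univ \ T).card *
      ∏ y, P0 (if y ∈ T then h else 0) (x y) := by
  unfold wt
  refine (prod_le_prod (fun y _ => by positivity) fun y _ => (P0_bd h (x y)).2).trans (le_of_eq ?_)
  rw [prod_add]
  refine sum_congr rfl fun T _ => ?_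
  rw [prod_const, prod_mul_distrib, prod_const]
  have h1 : ∏ y ∈ T, P0 h (x y) = ∏ y, P0 (if y ∈ T then h else 0) (x y) := by
    rw [← prod_subset (subset_univ T)]
    · exact prod_congr rfl fun y hy => by rw [if_pos hy]
    · intro y _ hy
      rw [if_neg hy, P0, prod_range_zero]
  rw [h1]
  ring

theorem fil_univ {α : Type} (F G : Fintype α) (p q : α → Prop) (i : DecidablePred p) (j : DecidablePred q)
    (h : ∀ x, p x ↔ q x) :
    (@Finset.filter α p i (@Finset.univ α F)).card = (@Finset.filter α q j (@Finset.univ α G)).card := by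
  congr 1
  ext x
  rw [mem_filter, mem_filter, h x]
  exact ⟨fun g => ⟨@Finset.mem_univ _ G x, g.2⟩, fun g => ⟨@Finset.mem_univ _ F x, g.2⟩⟩

theorem om_gen (hCLN : S_CLN) {P M s : Type} [Fintype P] [Fintype M] [Fintype s] (h : P → s → ZMod 2) (hs : Spn h)
    (ρ : M → s → ZMod 2) (F : Fintype (P → M → ZMod 2)) (i : DecidablePred fun τ : P → M → ZMod 2 => lbs h τ = ρ) :
    (((@Finset.filter _ _ i (@Finset.univ _ F)).card : ℕ) : ℝ) * 2 ^ (Fintype.card M * Fintype.card s) =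
      (2 ^ Fintype.card M : ℝ) ^ Fintype.card P := by
  have h0 := hCLN P M s h hs ρ
  have h1 : (@Finset.filter _ _ i (@Finset.univ _ F)).card * 2 ^ (Fintype.card M * Fintype.card s) =
      2 ^ (Fintype.card P * Fintype.card M) := by
    rw [← h0]
    congr 1
    exact fil_univ _ _ _ _ _ _ fun τ => Iff.rfl
  rw [← pow_mul, mul_comm (Fintype.card M) (Fintype.card P)]
  exact_mod_cast h1

section core

variable {k : Type} [Field k] [Fintype k] {R : Type} [Fintype R] {n : R → ℕ} {a : ∀ r, Fin (n r) → k[X]}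
  {N : R → ℕ} (H : ∀ r, Geo (a r) (N r)) {M J : Type} [Fintype M] [Fintype J] (e : J → M → ZMod 2)

/-- the families of divisors with given labels -/
noncomputable def Om (a : ∀ r, Fin (n r) → k[X]) (ρ : M → Option (TQ a) → ZMod 2) (D : k[X]) :
    Finset (Ip D → M → ZMod 2) :=
  univ.filter fun τ => lbs (lbD a D) τ = ρ

/-- the exponents -/
noncomputable def xe {D : k[X]} (τ : Ip D → M → ZMod 2) (x : J × R) : ℕ := ex (H x.2) (dv (e x.1) τ)

/-- the admissible labels -/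
def Aok (N : R → ℕ) (e : J → M → ZMod 2) (ρ : M → Option (TQ a) → ZMod 2) : Prop :=
  ∀ j r, lbf e ρ j none + (N r : ZMod 2) = 1

/-- a filter along which the moments converge -/
structure Nice (l : Filter k[X]) : Prop where
  mem : ∀ᶠ D in l, D ∈ Dn (∏ r, Del (a r)) D.natDegree
  spn : ∀ᶠ D in l, Spn (lbD a D)
  mom : ∀ ρ : M → Option (TQ a) → ZMod 2, Aok N e ρ → ∀ (μ : J → R → ℕ) (ε : ℝ), 0 < ε → ∀ᶠ D in l,
    |∑ τ ∈ Om a ρ D, (∏ j, ∏ r, ∏ i ∈ range (μ j r), ((kD (H r) (dv (e j) τ) : ℝ) - 2 ^ i) -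
      ∏ j, ∏ r, (2 : ℝ) ^ (μ j r * (μ j r + 1) / 2))| ≤ ε * (2 ^ Fintype.card M : ℝ) ^ Fintype.card (Ip D)

variable {H e} {l : Filter k[X]}

theorem om_card (hCLN : S_CLN) {D : k[X]} (h : Spn (lbD a D)) (ρ : M → Option (TQ a) → ZMod 2) :
    ((Om a ρ D).card : ℝ) * 2 ^ (Fintype.card M * Fintype.card (Option (TQ a))) =
      (2 ^ Fintype.card M : ℝ) ^ Fintype.card (Ip D) := om_gen hCLN (lbD a D) h ρ _ _

theorem om_pos (hCLN : S_CLN) {D : k[X]} (h : Spn (lbD a D)) (ρ : M → Option (TQ a) → ZMod 2) :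
    0 < (Om a ρ D).card := by
  have h1 := om_card hCLN h ρ
  rcases Nat.eq_zero_or_pos (Om a ρ D).card with h2 | h2
  · rw [h2, Nat.cast_zero, zero_mul] at h1
    have : (0 : ℝ) < (2 ^ Fintype.card M : ℝ) ^ Fintype.card (Ip D) := by positivity
    exact absurd h1 this.ne
  · exact h2

/-- the moments -/
theorem mom_avg (hN : Nice H e l) (hCLN : S_CLN) (hPRD : Pool.Agent.Q269.GR.S_PRD) (hKDR : S_KDR)
    {ρ : M → Option (TQ a) → ZMod 2} (hρ : Aok N e ρ) (μ : J × R → ℕ) {ε : ℝ} (hε : 0 < ε) : ∀ᶠ D in l,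
    |∑ τ ∈ Om a ρ D, (∏ y, P0 (μ y) (xe H e τ y) - ∏ y, (2 : ℝ) ^ (μ y * (μ y + 1) / 2))| ≤
      ε * ((Om a ρ D).card : ℝ) := by
  obtain ⟨W, hW⟩ : ∃ W : ℝ, W = 2 ^ (Fintype.card M * Fintype.card (Option (TQ a))) := ⟨_, rfl⟩
  have hW0 : 0 < W := by rw [hW]; positivity
  filter_upwards [hN.mem, hN.spn, hN.mom ρ hρ (fun j r => μ (j, r)) (ε / W) (div_pos hε hW0)] with D h1 h2 h3
  have h4 := om_card hCLN h2 ρ
  rw [← hW] at h4
  rw [← h4] at h3
  have e1 : ε / W * (((Om a ρ D).card : ℝ) * W) = ε * ((Om a ρ D).card : ℝ) := by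
    field_simp
  rw [e1] at h3
  refine le_trans (le_of_eq ?_) h3
  congr 1
  refine sum_congr rfl fun τ hτ => ?_
  have hτ' : lbs (lbD a D) τ = ρ := (mem_filter.1 hτ).2
  congr 1
  · rw [Fintype.prod_prod_type]
    refine prod_congr rfl fun j _ => prod_congr rfl fun r _ => ?_
    have h5 := (ex_dv H hPRD hKDR h1 e τ j r (by rw [hτ']; exact hρ j r)).1
    unfold P0 xe
    rw [h5]
    push_cast
    rfl
  · rw [Fintype.prod_prod_type]

/-- the weights are bounded in the mean -/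
theorem wt_avg (hN : Nice H e l) (hCLN : S_CLN) (hPRD : Pool.Agent.Q269.GR.S_PRD) (hKDR : S_KDR)
    {ρ : M → Option (TQ a) → ZMod 2} (hρ : Aok N e ρ) (h : ℕ) : ∃ B : ℝ, 0 ≤ B ∧ ∀ᶠ D in l,
    ∑ τ ∈ Om a ρ D, wt h (xe H e τ) ≤ B * ((Om a ρ D).card : ℝ) := by
  obtain ⟨μ, hμ⟩ : ∃ μ : Finset (J × R) → J × R → ℕ, μ = fun T y => if y ∈ T then h else 0 := ⟨_, rfl⟩
  have h1 : ∀ᶠ D in l, ∀ T ∈ (univ : Finset (J × R)).powerset,
      |∑ τ ∈ Om a ρ D, (∏ y, P0 (μ T y) (xe H e τ y) - ∏ y, (2 : ℝ) ^ (μ T y * (μ T y + 1) / 2))| ≤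
        1 * ((Om a ρ D).card : ℝ) := by
    rw [eventually_all_finset]
    exact fun T _ => mom_avg hN hCLN hPRD hKDR hρ (μ T) one_pos
  refine ⟨∑ T ∈ (univ : Finset (J × R)).powerset, ((2 : ℝ) ^ h) ^ T.card * (2 ^ (h * h)) ^ (univ \ T).card *
    (∏ y, (2 : ℝ) ^ (μ T y * (μ T y + 1) / 2) + 1), by positivity, ?_⟩
  filter_upwards [h1] with D h2
  calc ∑ τ ∈ Om a ρ D, wt h (xe H e τ)
      ≤ ∑ τ ∈ Om a ρ D, ∑ T ∈ (univ : Finset (J × R)).powerset, ((2 : ℝ) ^ h) ^ T.card *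
        (2 ^ (h * h)) ^ (univ \ T).card * ∏ y, P0 (μ T y) (xe H e τ y) := by
        refine sum_le_sum fun τ _ => (wt_bd h _).trans (le_of_eq ?_)
        rw [hμ]
    _ = ∑ T ∈ (univ : Finset (J × R)).powerset, ((2 : ℝ) ^ h) ^ T.card *
        (2 ^ (h * h)) ^ (univ \ T).card * ∑ τ ∈ Om a ρ D, ∏ y, P0 (μ T y) (xe H e τ y) := by
        rw [sum_comm]
        exact sum_congr rfl fun T _ => (mul_sum _ _ _).symm
    _ ≤ ∑ T ∈ (univ : Finset (J × R)).powerset, ((2 : ℝ) ^ h) ^ T.card *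
        (2 ^ (h * h)) ^ (univ \ T).card * ((∏ y, (2 : ℝ) ^ (μ T y * (μ T y + 1) / 2) + 1) * ((Om a ρ D).card : ℝ)) := by
        refine sum_le_sum fun T hT => mul_le_mul_of_nonneg_left ?_ (by positivity)
        have h3 := h2 T hT
        rw [sum_sub_distrib, sum_const, nsmul_eq_mul] at h3
        have h4 := (abs_le.1 h3).2
        linarith
    _ = _ := by
        rw [sum_mul]
        exact sum_congr rfl fun T _ => by ring

/-- the set of the pairs `(D, τ)` -/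
noncomputable def SD (a : ∀ r, Fin (n r) → k[X]) (ρ : M → Option (TQ a) → ZMod 2) (D : k[X]) :
    Finset (Σ D : k[X], (Ip D → M → ZMod 2)) := (Om a ρ D).map (Function.Embedding.sigmaMk D)

theorem SD_card (ρ : M → Option (TQ a) → ZMod 2) (D : k[X]) : (SD a ρ D).card = (Om a ρ D).card := card_map _

theorem SD_sum (ρ : M → Option (TQ a) → ZMod 2) (D : k[X]) (g : (Σ D : k[X], (Ip D → M → ZMod 2)) → ℝ) :
    ∑ x ∈ SD a ρ D, g x = ∑ τ ∈ Om a ρ D, g ⟨D, τ⟩ := sum_map _ _ _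

theorem SD_filter (ρ : M → Option (TQ a) → ZMod 2) (D : k[X]) (p : (Σ D : k[X], (Ip D → M → ZMod 2)) → Prop)
    (i : DecidablePred p) :
    (@Finset.filter _ p i (SD a ρ D)).card = ((Om a ρ D).filter fun τ => p ⟨D, τ⟩).card := by
  unfold SD
  rw [filter_map, card_map]
  exact Pool.Agent.Q269.SX.Lv.fil_card _ _ _ _ _ fun τ => Iff.rfl

/-- the law at a point -/
theorem law_pt (hN : Nice H e l) (hCLN : S_CLN) (hPRD : Pool.Agent.Q269.GR.S_PRD) (hKDR : S_KDR)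
    {ρ : M → Option (TQ a) → ZMod 2} (hρ : Aok N e ρ) (u : J × R → ℕ) :
    Tendsto (fun D => (((Om a ρ D).filter fun τ => xe H e τ = u).card : ℝ) / ((Om a ρ D).card : ℝ)) l
      (nhds (∏ y : J × R, Pool.Agent.Q269.SL.lawc (cR H (lbf e ρ y.1) y.2) (u y))) := by
  rw [Metric.tendsto_nhds]
  intro η hη
  obtain ⟨B, δ, hδ, h1⟩ := mom (J × R) (fun y => cR H (lbf e ρ y.1) y.2) u (η / 2) (half_pos hη)
  have h2 : ∀ᶠ D in l, ∀ μ ∈ Fintype.piFinset (fun _ : J × R => range (B + 1)),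
      |∑ τ ∈ Om a ρ D, (∏ y, P0 (μ y) (xe H e τ y) - ∏ y, (2 : ℝ) ^ (μ y * (μ y + 1) / 2))| ≤
        δ * ((Om a ρ D).card : ℝ) := by
    rw [eventually_all_finset]
    exact fun μ _ => mom_avg hN hCLN hPRD hKDR hρ μ hδ
  filter_upwards [h2, hN.mem, hN.spn] with D h3 h4 h5
  have h6 := om_pos hCLN h5 ρ
  have h6' : (0 : ℝ) < ((Om a ρ D).card : ℝ) := by exact_mod_cast h6
  haveI : Nonempty {τ // τ ∈ Om a ρ D} := by
    obtain ⟨τ, hτ⟩ := card_pos.1 h6
    exact ⟨⟨τ, hτ⟩⟩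
  have h7 := h1 {τ // τ ∈ Om a ρ D} (fun τ => xe H e τ.1) ?_ ?_
  · rw [Fintype.card_coe] at h7
    have e1 : ((univ : Finset {τ // τ ∈ Om a ρ D}).filter fun w => xe H e w.1 = u).card =
        ((Om a ρ D).filter fun τ => xe H e τ = u).card := by
      rw [← card_map (Function.Embedding.subtype _)]
      congr 1
      ext τ
      simp only [Finset.mem_map, mem_filter, mem_univ, true_and, Function.Embedding.coe_subtype, Subtype.exists,
        exists_and_right, exists_eq_right]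
      constructor
      · rintro ⟨h8, h9⟩
        exact ⟨h8, h9⟩
      · rintro ⟨h8, h9⟩
        exact ⟨h8, h9⟩
    rw [Real.dist_eq]
    simp only [lawc_sl] at h7
    have e2 : (((univ : Finset {τ // τ ∈ Om a ρ D}).filter fun w => (fun τ : {τ // τ ∈ Om a ρ D} => xe H e τ.1) w = u).card : ℝ) =
        (((Om a ρ D).filter fun τ => xe H e τ = u).card : ℝ) := by
      exact_mod_cast e1
    rw [e2] at h7
    linarith
  · intro τ y
    have hτ' : lbs (lbD a D) τ.1 = ρ := (mem_filter.1 τ.2).2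
    have h8 := (ex_dv H hPRD hKDR h4 e τ.1 y.1 y.2 (by rw [hτ']; exact hρ _ _)).2
    rw [hτ'] at h8
    exact h8
  · intro μ hμ
    rw [Fintype.card_coe]
    have h8 := h3 μ (Fintype.mem_piFinset.2 fun y => mem_range.2 (Nat.lt_succ_of_le (hμ y)))
    rw [sum_sub_distrib, sum_const, nsmul_eq_mul] at h8
    have e3 : ∑ w : {τ // τ ∈ Om a ρ D}, ∏ y, ∏ i ∈ range (μ y), ((2 : ℝ) ^ xe H e w.1 y - 2 ^ i) =
        ∑ τ ∈ Om a ρ D, ∏ y, P0 (μ y) (xe H e τ y) := by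
      rw [← sum_coe_sort (Om a ρ D)]
      rfl
    rw [e3, div_sub' h6'.ne', abs_div, abs_of_pos h6', div_le_iff₀ h6']
    exact h8

/-- **means of functions** -/
theorem mean_cls (hN : Nice H e l) (hCLN : S_CLN) (hPRD : Pool.Agent.Q269.GR.S_PRD) (hKDR : S_KDR)
    {ρ : M → Option (TQ a) → ZMod 2} (hρ : Aok N e ρ) (f : (J × R → ℕ) → ℝ) (u : ℕ) (C : ℝ)
    (hf : ∀ x, |f x| ≤ C * wt u x) :
    (Summable fun x : J × R → ℕ => f x * ∏ y : J × R, Pool.Agent.Q269.SL.lawc (cR H (lbf e ρ y.1) y.2) (x y)) ∧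
    Tendsto (fun D => (∑ τ ∈ Om a ρ D, f (xe H e τ)) / ((Om a ρ D).card : ℝ)) l
      (nhds (∑' x : J × R → ℕ, f x * ∏ y : J × R, Pool.Agent.Q269.SL.lawc (cR H (lbf e ρ y.1) y.2) (x y))) := by
  obtain ⟨B, hB0, hB⟩ := wt_avg hN hCLN hPRD hKDR hρ (2 * (u + 1))
  have h3 := expect l (SD a ρ) (fun x => xe H e x.2)
    (fun x : J × R → ℕ => ∏ y : J × R, Pool.Agent.Q269.SL.lawc (cR H (lbf e ρ y.1) y.2) (x y))
    (wt (u + 1)) (wt_fin (by omega)) (one_le_wt (u + 1))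
    (fun x => prod_nonneg fun r _ => lawc_nonneg _ _)
    (by
      simp only [wt_sq]
      exact (Pool.Agent.Q269.SX.sum_wt (fun y : J × R => Pool.Agent.Q269.SL.lawc (cR H (lbf e ρ y.1) y.2))
        (fun _ => lawc_nonneg _) (2 * (u + 1)) fun _ => mom_lawc _ _).summable)
    (fun x => by
      refine (law_pt hN hCLN hPRD hKDR hρ x).congr fun D => ?_
      rw [SD_card, SD_filter]
      congr 2
      exact Pool.Agent.Q269.SX.Lv.fil_card _ _ _ _ _ fun τ => Iff.rfl)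
    (B := B) (by
      filter_upwards [hB] with D hm'
      rw [SD_sum, SD_card]
      simp only [wt_sq]
      exact hm') f (C := |C|) (fun x => by
        have h5 : wt u x ≤ wt (u + 1) x := by
          unfold wt
          refine prod_le_prod (fun _ _ => by positivity) fun r _ => ?_
          exact pow_le_pow_left₀ (by positivity) (pow_le_pow_right₀ (by norm_num) (by omega)) _
        calc |f x| ≤ C * wt u x := hf x
          _ ≤ |C| * wt u x := mul_le_mul_of_nonneg_right (le_abs_self C) (zero_le_one.trans (one_le_wt u x))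
          _ ≤ |C| * wt (u + 1) x := mul_le_mul_of_nonneg_left h5 (abs_nonneg C))
  refine ⟨h3.1, h3.2.congr fun D => ?_⟩
  rw [SD_sum, SD_card]

end core

end Pool.Agent.Q269.DX
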