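import Pool.Agent.Q269.DX.All
import Pool.Agent.Q269.SX.Spn

/-!
# Project DX: the sets of divisors of the final statements
-/

set_option autoImplicit false
set_option linter.all false

open scoped Classical
open Finset Polynomial Filter Topology

namespace Pool.Agent.Q269.DX

open Pool.Agent.Q269.DX.JQ Pool.Agent.Q269.DX.LD
open Pool.Agent.Y164.HG (Geo Del Tau QQ)
open Pool.Agent.Q269.GR (Dn mem_Dn' pr F2 S_PRD)
open Pool.Agent.Q269.GJ (Ip)
open Pool.Agent.Q269.SX (kD sgD ex S_KDR kD_pow mem_of wt pcl sum_pcl BadN SplitN sgT cls_iff sgT_sum badN_card)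
open Pool.Agent.Q269.SL (law2)

section

variable {k : Type} [Field k] [Fintype k] {R : Type} [Fintype R] {n : R → ℕ} {a : ∀ r, Fin (n r) → k[X]}
  {N : R → ℕ} (H : ∀ r, Geo (a r) (N r)) {D : k[X]} {m : ℕ}

/-- the divisors of `D` prime to the differences, `deg d + N r` odd for all `r` -/
def DvS (a : ∀ r, Fin (n r) → k[X]) (N : R → ℕ) (D : k[X]) : Set k[X] :=
  {d | d.Monic ∧ d ∣ D ∧ (∀ r i j, i ≠ j → IsCoprime d (a r i - a r j)) ∧ ∀ r, Odd (d.natDegree + N r)}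

theorem cop_iff {d : k[X]} : IsCoprime d (∏ r, Del (a r)) ↔ ∀ r i j, i ≠ j → IsCoprime d (a r i - a r j) := by
  rw [IsCoprime.prod_right_iff]
  constructor
  · intro h r i j hij
    have h1 := h r (mem_univ r)
    unfold Del at h1
    rw [IsCoprime.prod_right_iff] at h1
    rcases lt_or_gt_of_ne hij with h2 | h2
    · exact h1 (i, j) (mem_filter.2 ⟨mem_univ _, h2⟩)
    · have h3 := h1 (j, i) (mem_filter.2 ⟨mem_univ _, h2⟩)
      rw [← neg_sub]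
      exact h3.neg_right
  · intro h r _
    unfold Del
    rw [IsCoprime.prod_right_iff]
    intro x hx
    exact h r x.1 x.2 (ne_of_lt (mem_filter.1 hx).2)

theorem odd_iff (c : ZMod 2) (r₀ : R) (hc : ∀ r, c + (N r : ZMod 2) = 1) (e : ℕ) :
    (∀ r, Odd (e + N r)) ↔ ((e : ℕ) : ZMod 2) = c := by
  have h2 : ∀ x y z : ZMod 2, y + z = 1 → (x + z = 1 ↔ x = y) := by decide
  constructor
  · intro h
    have h1 := (ZMod.natCast_eq_one_iff_odd).2 (h r₀)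
    rw [Nat.cast_add] at h1
    exact (h2 _ _ _ (hc r₀)).1 h1
  · intro h r
    rw [← ZMod.natCast_eq_one_iff_odd, Nat.cast_add]
    exact (h2 _ _ _ (hc r)).2 h

include H in
theorem dvS_eq (hPRD : S_PRD) (hKDR : S_KDR) (hD : D ∈ Dn (1 : k[X]) m) (c : ZMod 2) (r₀ : R)
    (hc : ∀ r, c + (N r : ZMod 2) = 1) : DvS a N D = ((dva H c (dp (∏ r, Del (a r)) D) : Finset k[X]) : Set k[X]) := by
  ext d
  rw [mem_coe, mem_dva H hPRD hKDR (dp_mem hPRD hD), dvd_dp_iff hPRD (prd_ne H) hD, cop_iff, ← odd_iff c r₀ hc]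
  show d.Monic ∧ d ∣ D ∧ _ ∧ _ ↔ _
  tauto

theorem clS_eq (hPRD : S_PRD) (hKDR : S_KDR) (hD : D ∈ Dn (1 : k[X]) m) (c : ZMod 2) (r₀ : R)
    (hc : ∀ r, c + (N r : ZMod 2) = 1) {S : ∀ r : R, Set k[X]} (hS : ∀ r, S r ⊆ BadN (a r)) :
    {d ∈ DvS a N D | ∀ r, {Q ∈ BadN (a r) | SplitN (a r) d Q} = S r} =
      ((dvc H c (fun r => sgT (a r) (S r)) (dp (∏ r, Del (a r)) D) : Finset k[X]) : Set k[X]) := by
  have hD' := dp_mem (Δ := ∏ r, Del (a r)) hPRD hD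
  ext d
  rw [mem_coe, mem_dvc H hPRD hKDR hD', Set.mem_setOf_eq, dvS_eq H hPRD hKDR hD c r₀ hc, mem_coe,
    mem_dva H hPRD hKDR hD', and_assoc (b := ((d.natDegree : ℕ) : ZMod 2) = c)]
  refine and_congr_right fun h1 => and_congr_right fun h2 => ?_
  have h3 : d ∈ Dn (∏ r, Del (a r)) d.natDegree := by
    have h4 := mem_Dn'.1 hD'
    exact mem_Dn'.2 ⟨⟨h1.1, rfl⟩, h4.2.1.squarefree_of_dvd h1.2, h4.2.2.of_isCoprime_of_dvd_left h1.2⟩
  refine forall_congr' fun r => ?_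
  exact (cls_iff (H r) hKDR (mem_of h3 r) (hS r)).symm

include H in
theorem pcl_eq {S : ∀ r : R, Set k[X]} (hS : ∀ r, S r ⊆ BadN (a r)) (e : R → ℕ) :
    pcl a e (fun r => sgT (a r) (S r)) = ∏ r, Pool.Agent.Q269.SL.lawc (((S r).ncard : ℕ) : ZMod 2) (e r) := by
  unfold pcl
  refine prod_congr rfl fun r _ => ?_
  have h := sgT_sum (H r) (hS r)
  exact congrArg (fun c => Pool.Agent.Q269.SL.lawc c (e r)) h

theorem pr_eq (hPRD : S_PRD) (hD : D ∈ Dn (1 : k[X]) m) :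
    {P : k[X] | P.Monic ∧ Irreducible P ∧ P ∣ D} = ((pr D : Finset k[X]) : Set k[X]) := by
  ext P
  rw [mem_coe, pr_mem hPRD hD]
  rfl

include H in
theorem prc_eq (hPRD : S_PRD) (hD : D ∈ Dn (1 : k[X]) m) :
    {P : k[X] | (P.Monic ∧ Irreducible P ∧ P ∣ D) ∧ ∀ r i j, i ≠ j → IsCoprime P (a r i - a r j)} =
      ((pr (dp (∏ r, Del (a r)) D) : Finset k[X]) : Set k[X]) := by
  have hD' := dp_mem (Δ := ∏ r, Del (a r)) hPRD hD
  ext P
  rw [mem_coe, ((hPRD k _ (prd_ne H)).2.1 _ _ hD').2.2, dvd_dp_iff hPRD (prd_ne H) hD, cop_iff]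
  show (_ ∧ _ ∧ _) ∧ _ ↔ _
  tauto

theorem card_Ip (D : k[X]) : Fintype.card (Ip D) = (pr D).card := Fintype.card_coe _

/-- the number of primes of `D` prime to the differences tends to infinity -/
theorem card_dp (hPRD : S_PRD) {Δ : k[X]} (hΔ : Δ ≠ 0) (hD : D ∈ Dn (1 : k[X]) m) :
    (pr (dp Δ D)).card ≤ (pr D).card ∧ (pr D).card ≤ (pr (dp Δ D)).card + (pr Δ).card := by
  have hD' := dp_mem (Δ := Δ) hPRD hD
  have h1 := ((hPRD k _ hΔ).2.1 _ _ hD').2.2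
  have h2 := pr_mem hPRD hD
  have h3 := (hPRD k Δ hΔ).2.2.2.2.1
  constructor
  · refine card_le_card fun P hP => ?_
    have h4 := (h1 P).1 hP
    rw [dvd_dp_iff hPRD hΔ hD] at h4
    exact (h2 P).2 ⟨h4.1, h4.2.1, h4.2.2.1⟩
  · refine le_trans (card_le_card (t := pr (dp Δ D) ∪ pr Δ) fun P hP => ?_) (card_union_le _ _)
    have h4 := (h2 P).1 hP
    rw [mem_union]
    by_cases h5 : P ∣ Δ
    · exact Or.inr ((h3 P).2 ⟨h4.1, h4.2.1, h5⟩)
    · refine Or.inl ((h1 P).2 ⟨h4.1, h4.2.1, ?_⟩)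
      rw [dvd_dp_iff hPRD hΔ hD]
      exact ⟨h4.2.2, (h4.2.1.coprime_iff_not_dvd).2 h5⟩

/-- the mean over a set -/
theorem mean_coe (X : Finset k[X]) (f : k[X] → ℝ) :
    (∑ᶠ d ∈ ((X : Finset k[X]) : Set k[X]), f d) / ((((X : Finset k[X]) : Set k[X]).ncard : ℕ) : ℝ) =
      (∑ d ∈ X, f d) / (X.card : ℝ) := by
  rw [finsum_mem_coe_finset, Set.ncard_coe_finset]

theorem lS_eq (S : k[X] → Prop) :
    lS S = comap natDegree atTop ⊓ 𝓟 {D : k[X] | S D ∧ D.Monic ∧ Squarefree D} := by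
  unfold lS
  congr 2
  ext D
  show D ∈ Dn (1 : k[X]) D.natDegree ∧ S D ↔ S D ∧ D.Monic ∧ Squarefree D
  rw [mem_one]
  tauto

/-- density one -/
theorem dens (hPRD : S_PRD) (hk : ringChar k ≠ 2) (hm : IsSquare (-1 : k)) {S : k[X] → Prop}
    (h : ∀ ε : ℝ, 0 < ε → ∀ᶠ m : ℕ in atTop,
      (((Dn (1 : k[X]) m).filter fun D => ¬ S D).card : ℝ) ≤ ε * (Fintype.card k : ℝ) ^ m) :
    Tendsto (fun m : ℕ => (((Dn (1 : k[X]) m).filter fun D => S D).card : ℝ) / ((Dn (1 : k[X]) m).card : ℝ)) atTop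
      (nhds 1) := by
  obtain ⟨c, hc, hlow⟩ := Pool.Agent.Q269.SX.lowD (k := k) (R := PEmpty) (n := fun _ => 0) (a := fun r => r.elim)
    (N := fun _ => 0) (fun r => r.elim) (fun r => r.elim) hk hm
  rw [show (∏ r : PEmpty, Del (k := k) (n := (fun _ => 0 : PEmpty → ℕ) r) ((fun r => r.elim : ∀ r : PEmpty, Fin 0 → k[X]) r)) = 1 from prod_of_isEmpty _] at hlow
  refine Pool.Agent.Q269.SX.ratioR le_rfl (q_pos (k := k)) hc hlow fun ε hε => ?_
  filter_upwards [h ε hε] with m h1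
  have h2 : (((Dn (1 : k[X]) m).filter fun D => S D).card : ℝ) + (((Dn (1 : k[X]) m).filter fun D => ¬ S D).card : ℝ) =
      ((Dn (1 : k[X]) m).card : ℝ) := by
    exact_mod_cast card_filter_add_card_filter_not (s := Dn (1 : k[X]) m) (p := fun D => S D)
  rw [one_mul, ← h2, abs_sub_comm, add_sub_cancel_left, abs_of_nonneg (Nat.cast_nonneg _)]
  exact h1

end

end Pool.Agent.Q269.DX
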