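import Pool.Agent.Q269.DX.Set

/-!
# Project DX: the divisors of one polynomial
-/

set_option autoImplicit false
set_option linter.all false

open scoped Classical
open Finset Polynomial Filter Topology

namespace Pool.Agent.Q269.DX

open Pool.Agent.Q269.DX.JQ Pool.Agent.Q269.DX.LD
open Pool.Agent.Y164.PS (L Fam)
open Pool.Agent.Y164.HG (Geo Del Tau QQ)
open Pool.Agent.Q269.GR (Dn mem_Dn' pr F2 S_PRD)
open Pool.Agent.Q269.GJ (Ip)
open Pool.Agent.Q269.SX (kD sgD ex S_KDR kD_pow mem_of wt pcl)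

section one

variable {k : Type} [Field k] [Fintype k] {Δ D : k[X]} {m : ℕ}

/-- the divisor attached to a set of primes -/
noncomputable def d1 {D : k[X]} (σ : Ip D → ZMod 2) : k[X] := ∏ P : Ip D, if σ P = 0 then 1 else P.1

theorem dv_d1 {M : Type} [Fintype M] (e : M → ZMod 2) (τ : Ip D → M → ZMod 2) :
    dv e τ = d1 fun P => ∑ i, e i * τ P i := rfl

theorem d1_dvd_iff (hPRD : S_PRD) (hΔ : Δ ≠ 0) (hD : D ∈ Dn Δ m) (σ : Ip D → ZMod 2) (P : Ip D) :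
    P.1 ∣ d1 σ ↔ σ P ≠ 0 := by
  obtain ⟨hP1, hP2, hP3⟩ := ip_mem hPRD hΔ hD P
  constructor
  · intro h h0
    unfold d1 at h
    obtain ⟨P', -, hd⟩ := (hP2.prime.dvd_finset_prod_iff _).1 h
    split_ifs at hd with h1
    · exact hP2.not_isUnit (isUnit_of_dvd_one hd)
    · obtain ⟨hP1', hP2', -⟩ := ip_mem hPRD hΔ hD P'
      have h2 : P = P' :=
        Subtype.ext (eq_of_monic_of_associated hP1 hP1' (hP2.associated_of_dvd hP2' hd))
      rw [h2] at h0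
      exact h1 h0
  · intro h
    have h1 : P.1 = if σ P = 0 then 1 else P.1 := by rw [if_neg h]
    rw [h1]
    exact dvd_prod_of_mem (fun P : Ip D => if σ P = 0 then 1 else P.1) (mem_univ P)

theorem F2_ext : ∀ x y : ZMod 2, (x ≠ 0 ↔ y ≠ 0) → x = y := by decide

theorem d1_inj (hPRD : S_PRD) (hΔ : Δ ≠ 0) (hD : D ∈ Dn Δ m) :
    Function.Injective (d1 : (Ip D → ZMod 2) → k[X]) := by
  intro σ σ' h
  funext P
  apply F2_ext
  rw [← d1_dvd_iff hPRD hΔ hD, ← d1_dvd_iff hPRD hΔ hD, h]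

theorem d1_surj (hPRD : S_PRD) (hΔ : Δ ≠ 0) (hD : D ∈ Dn Δ m) {d : k[X]} (h1 : d.Monic) (h2 : d ∣ D) :
    ∃ σ : Ip D → ZMod 2, d1 σ = d := by
  have h3 := mem_Dn'.1 hD
  have hd : d ∈ Dn Δ d.natDegree :=
    mem_Dn'.2 ⟨⟨h1, rfl⟩, h3.2.1.squarefree_of_dvd h2, h3.2.2.of_isCoprime_of_dvd_left h2⟩
  have h4 := ((hPRD k Δ hΔ).2.1 _ d hd)
  have h5 := ((hPRD k Δ hΔ).2.1 _ D hD)
  refine ⟨fun P => if P.1 ∣ d then 1 else 0, ?_⟩
  have h6 : d1 (fun P : Ip D => if P.1 ∣ d then (1 : ZMod 2) else 0) = ∏ P ∈ (pr D).filter (fun P => P ∣ d), P := by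
    unfold d1
    rw [prod_filter, ← prod_coe_sort (pr D) fun P => if P ∣ d then P else 1]
    refine prod_congr rfl fun P _ => ?_
    by_cases h : P.1 ∣ d
    · simp [h]
    · simp [h]
  have h7 : (pr D).filter (fun P => P ∣ d) = pr d := by
    ext P
    rw [mem_filter, h5.2.2, h4.2.2]
    constructor
    · rintro ⟨⟨g1, g2, -⟩, g3⟩
      exact ⟨g1, g2, g3⟩
    · rintro ⟨g1, g2, g3⟩
      exact ⟨⟨g1, g2, g3.trans h2⟩, g3⟩
  rw [h6, h7]
  exact h4.1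

/-- the divisors of the part prime to `Δ` -/
theorem dvd_dp_iff (hPRD : S_PRD) (hΔ : Δ ≠ 0) (hD : D ∈ Dn (1 : k[X]) m) {d : k[X]} :
    d ∣ dp Δ D ↔ d ∣ D ∧ IsCoprime d Δ := by
  have h1 := gp_dp (Δ := Δ) hPRD hD
  constructor
  · intro h
    refine ⟨h.trans (Dvd.intro_left _ h1), ?_⟩
    exact (mem_Dn'.1 (dp_mem (Δ := Δ) hPRD hD)).2.2.of_isCoprime_of_dvd_left h
  · rintro ⟨h2, h3⟩
    rw [← h1] at h2
    refine IsCoprime.dvd_of_dvd_mul_left ?_ h2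
    refine IsCoprime.prod_right fun P hP => ?_
    exact h3.of_isCoprime_of_dvd_right (mem_filter.1 hP).2

end one

section om

variable {k : Type} [Field k] [Fintype k] {R : Type} [Fintype R] {n : R → ℕ} (a : ∀ r, Fin (n r) → k[X])
  {M : Type} [Fintype M] (ρ : M → Option (TQ a) → ZMod 2) {D : k[X]}

theorem mem_Om (τ : Ip D → M → ZMod 2) : τ ∈ Om a ρ D ↔ lbs (lbD a D) τ = ρ := by
  unfold Om
  rw [mem_filter]
  exact ⟨fun h => h.2, fun h => ⟨mem_univ _, h⟩⟩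

end om

section single

variable {k : Type} [Field k] [Fintype k] {R : Type} [Fintype R] {n : R → ℕ} {a : ∀ r, Fin (n r) → k[X]}
  {N : R → ℕ} (H : ∀ r, Geo (a r) (N r)) {D : k[X]} {m : ℕ}

/-- the single divisor -/
def e1 : Fin 1 → Fin 1 → ZMod 2 := fun _ _ => 1

theorem e1_inj : Function.Injective e1 := fun x y _ => Subsingleton.elim x y

theorem e1_ne (j : Fin 1) : e1 j ≠ 0 := fun h => by
  have := congrFun h 0
  exact one_ne_zero this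

/-- the divisor of a family of one element -/
noncomputable def D1 (D : k[X]) (τ : Ip D → Fin 1 → ZMod 2) : k[X] := dv (e1 0) τ

theorem D1_eq (τ : Ip D → Fin 1 → ZMod 2) : D1 D τ = d1 fun P => τ P 0 := by
  unfold D1
  rw [dv_d1]
  congr 1
  funext P
  rw [Fin.sum_univ_one]
  exact one_mul _

theorem D1_inj (hPRD : S_PRD) {Δ : k[X]} (hΔ : Δ ≠ 0) (hD : D ∈ Dn Δ m) : Function.Injective (D1 D) := by
  intro τ τ' h
  rw [D1_eq, D1_eq] at h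
  have h1 := d1_inj hPRD hΔ hD h
  funext P i
  rw [Subsingleton.elim i 0]
  exact congrFun h1 P

theorem D1_surj (hPRD : S_PRD) {Δ : k[X]} (hΔ : Δ ≠ 0) (hD : D ∈ Dn Δ m) {d : k[X]} (h1 : d.Monic) (h2 : d ∣ D) :
    ∃ τ, D1 D τ = d := by
  obtain ⟨σ, hσ⟩ := d1_surj hPRD hΔ hD h1 h2
  exact ⟨fun P _ => σ P, by rw [D1_eq]; exact hσ⟩

/-- the label of a class of divisors -/
noncomputable def rh (c : ZMod 2) (σ : ∀ r, Tau (a r) → ZMod 2) (_ : Fin 1) (o : Option (TQ a)) : ZMod 2 :=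
  o.elim c fun x => σ x.1 x.2 + (H x.1).comb.gg x.2

theorem lbf_e1 {s : Type} (ρ : Fin 1 → s → ZMod 2) (j : Fin 1) (t : s) : lbf e1 ρ j t = ρ 0 t := by
  rw [lbf_apply, Fin.sum_univ_one]
  exact one_mul _

/-- the class of a divisor -/
theorem lbs_iff (hPRD : S_PRD) (hKDR : S_KDR) (hD : D ∈ Dn (∏ r, Del (a r)) m) (c : ZMod 2)
    (σ : ∀ r, Tau (a r) → ZMod 2) (τ : Ip D → Fin 1 → ZMod 2) :
    lbs (lbD a D) τ = rh H c σ ↔ (((D1 D τ).natDegree : ℕ) : ZMod 2) = c ∧ ∀ r s, sgD (H r) (D1 D τ) s = σ r s := by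
  have hΔ := prd_ne H
  have h1 : lbs (lbD a D) τ 0 none = (((D1 D τ).natDegree : ℕ) : ZMod 2) := by
    rw [← lbf_e1 (lbs (lbD a D) τ) 0 none, lbf_lbs]
    exact (dv_deg hPRD hΔ hD (e1 0) τ).symm
  have h2 : ∀ r s, lbs (lbD a D) τ 0 (some ⟨r, s⟩) + (H r).comb.gg s = sgD (H r) (D1 D τ) s := by
    intro r s
    rw [← lbf_e1 (lbs (lbD a D) τ) 0 (some ⟨r, s⟩), lbf_lbs]
    exact (sgD_dv H hPRD hKDR hD (e1 0) τ r s).symm
  have h3 : ∀ x y z : ZMod 2, x = y + z ↔ x + z = y := by decide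
  constructor
  · intro h
    refine ⟨?_, fun r s => ?_⟩
    · rw [← h1, h]
      rfl
    · rw [← h2, h, ← h3]
      rfl
  · rintro ⟨g1, g2⟩
    funext i o
    rw [Subsingleton.elim i 0]
    rcases o with _ | ⟨r, s⟩
    · rw [h1, g1]
      rfl
    · have g3 := g2 r s
      rw [← h2, ← h3] at g3
      exact g3

theorem cR_rh (c : ZMod 2) (σ : ∀ r, Tau (a r) → ZMod 2) (j : Fin 1) (r : R) :
    cR H (lbf e1 (rh H c σ) j) r = (Fintype.card (Tau (a r)) : ZMod 2) + ∑ s, σ r s := by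
  unfold cR
  congr 1
  refine sum_congr rfl fun s _ => ?_
  rw [lbf_e1]
  show σ r s + (H r).comb.gg s + (H r).comb.gg s = _
  have : ∀ x y : ZMod 2, x + y + y = x := by decide
  exact this _ _

/-- the divisors of `D` in a class -/
noncomputable def dvc (c : ZMod 2) (σ : ∀ r, Tau (a r) → ZMod 2) (D : k[X]) : Finset k[X] :=
  (Om a (rh H c σ) D).image (D1 D)

theorem mem_dvc (hPRD : S_PRD) (hKDR : S_KDR) (hD : D ∈ Dn (∏ r, Del (a r)) m) (c : ZMod 2)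
    (σ : ∀ r, Tau (a r) → ZMod 2) (d : k[X]) :
    d ∈ dvc H c σ D ↔ (d.Monic ∧ d ∣ D) ∧ ((d.natDegree : ℕ) : ZMod 2) = c ∧ ∀ r s, sgD (H r) d s = σ r s := by
  have hΔ := prd_ne H
  unfold dvc
  rw [mem_image]
  constructor
  · rintro ⟨τ, hτ, rfl⟩
    have h1 := (lbs_iff H hPRD hKDR hD c σ τ).1 ((mem_Om _ _ _).1 hτ)
    exact ⟨⟨dv_monic hPRD hΔ hD _ _, dv_dvd hPRD hΔ hD _ _⟩, h1⟩
  · rintro ⟨⟨h1, h2⟩, h3⟩
    obtain ⟨τ, rfl⟩ := D1_surj hPRD hΔ hD h1 h2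
    exact ⟨τ, (mem_Om _ _ _).2 ((lbs_iff H hPRD hKDR hD c σ τ).2 h3), rfl⟩

theorem dvc_card (hPRD : S_PRD) (hD : D ∈ Dn (∏ r, Del (a r)) m) (c : ZMod 2) (σ : ∀ r, Tau (a r) → ZMod 2) :
    (dvc H c σ D).card = (Om a (rh H c σ) D).card :=
  card_image_of_injective _ (D1_inj hPRD (prd_ne H) hD)

theorem dvc_sum (hPRD : S_PRD) (hD : D ∈ Dn (∏ r, Del (a r)) m) (c : ZMod 2) (σ : ∀ r, Tau (a r) → ZMod 2)
    (g : k[X] → ℝ) : ∑ d ∈ dvc H c σ D, g d = ∑ τ ∈ Om a (rh H c σ) D, g (D1 D τ) :=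
  sum_image fun x _ y _ h => D1_inj hPRD (prd_ne H) hD h

/-- **means over the divisors in a class** -/
theorem mean_dvc (hCLN : S_CLN) (hPRD : S_PRD) (hKDR : S_KDR) {l : Filter k[X]} (hN : Nice H e1 l) (c : ZMod 2)
    (hc : ∀ r, c + (N r : ZMod 2) = 1) (σ : ∀ r, Tau (a r) → ZMod 2) (f : (R → ℕ) → ℝ) (u : ℕ) (C : ℝ)
    (hf : ∀ x, |f x| ≤ C * wt u x) :
    (Summable fun x : R → ℕ => f x * pcl a x σ) ∧
    Tendsto (fun D => (∑ d ∈ dvc H c σ D, f (fun r => ex (H r) d)) / ((dvc H c σ D).card : ℝ)) l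
      (nhds (∑' x : R → ℕ, f x * pcl a x σ)) := by
  have hA : Aok N e1 (rh H c σ) := by
    intro j r
    rw [lbf_e1]
    exact hc r
  obtain ⟨E, hE⟩ : ∃ E : (Fin 1 × R → ℕ) ≃ (R → ℕ), E = (Equiv.arrowCongr (Equiv.uniqueProd R (Fin 1)) (Equiv.refl ℕ)) :=
    ⟨_, rfl⟩
  have hE1 : ∀ x : Fin 1 × R → ℕ, ∀ r, E x r = x (0, r) := by
    intro x r
    rw [hE]
    rfl
  have hpr : ∀ g : Fin 1 × R → ℝ, ∏ y, g y = ∏ r, g (0, r) := by
    intro g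
    rw [Fintype.prod_prod_type, Fin.prod_univ_one]
  obtain ⟨g1, g2⟩ := mean_cls hN hCLN hPRD hKDR hA (fun x => f (E x)) u C (fun x => by
    refine (hf _).trans (le_of_eq ?_)
    congr 1
    unfold wt
    rw [hpr]
    exact prod_congr rfl fun r _ => by rw [hE1])
  have e2 : ∀ x : Fin 1 × R → ℕ, ∏ y : Fin 1 × R, Pool.Agent.Q269.SL.lawc (cR H (lbf e1 (rh H c σ) y.1) y.2) (x y) =
      pcl a (E x) σ := by
    intro x
    rw [hpr]
    unfold pcl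
    refine prod_congr rfl fun r _ => ?_
    rw [cR_rh, hE1]
  have e3 : (fun x : Fin 1 × R → ℕ => f (E x) * ∏ y : Fin 1 × R,
      Pool.Agent.Q269.SL.lawc (cR H (lbf e1 (rh H c σ) y.1) y.2) (x y)) =
      (fun x : R → ℕ => f x * pcl a x σ) ∘ E := by
    funext x
    rw [e2]
    rfl
  rw [e3] at g1 g2
  refine ⟨E.summable_iff.1 g1, ?_⟩
  have e4 : (∑' x : Fin 1 × R → ℕ, ((fun x : R → ℕ => f x * pcl a x σ) ∘ E) x) = ∑' x : R → ℕ, f x * pcl a x σ :=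
    E.tsum_eq (fun x : R → ℕ => f x * pcl a x σ)
  rw [e4] at g2
  refine g2.congr' ?_
  filter_upwards [hN.mem] with D hD
  rw [dvc_card H hPRD hD, dvc_sum H hPRD hD]
  congr 1
  refine sum_congr rfl fun τ _ => ?_
  congr 1
  funext r
  rw [hE1]
  rfl

end single

end Pool.Agent.Q269.DX
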