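import Pool.Agent.Q269.DX.A261.EU
import Pool.Agent.Q269.DX.A182L.DIVM
import Pool.Agent.Q269.DX.A24.CRD
import Pool.Agent.Q269.DX.A299.LAM2
import Pool.Agent.Q269.DX.A299.TOR
import Pool.Agent.Q269.DX.A225.SS2
import Pool.Agent.Q269.DX.A81.CNT
import Pool.Agent.Q269.DX.A58.PROBF
import Pool.Agent.Q269.DX.A58.COL2
import Pool.Agent.Q269.DX.A203.UNL
import Pool.Agent.Q269.DX.A234.NF
import Pool.Agent.Q269.DX.A87.NINV
import Pool.Agent.Q269.DX.A87.NMAX

/-!
# The moments inside the divisors: the symmetric case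
-/

set_option autoImplicit false

namespace Pool.Agent.Q269.DX

open Finset Module
open Pool.Agent.Q269.DX.JQ Pool.Agent.Q269.DX.LD
open scoped Classical

theorem ninv2 : S_NINV2 := by
  intro s V U ι _ _ _ _ _ _ _ D ρ hD b hb Λ h1 h2 φ h3
  refine (A87.t_NINV s V U ι D ρ hD b hb Λ h1 h2 φ rfl h3).trans ?_
  apply div_le_div_of_nonneg_right _ (by positivity)
  apply pow_le_pow_right₀
  · have : 0 < Fintype.card V := Fintype.card_pos
    exact_mod_cast this
  · omega

theorem eu : S_EU := A261.t_EU A261.t_ID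

theorem main : S_MAIN := A261.t_MAIN A261.t_ID A299.t_TOR

theorem lam2 : S_LAM2 := A299.t_LAM2 A182.t_PROB eu main ninv2 A87.t_NMAX A299.t_ORT

theorem lamf : S_LAMF :=
  A182L.t_LAMF A58.t_PROBF A234.t_NF A203.t_UNL lam2 A182.t_PROB A87.t_NMAX A299.t_ORT eu

theorem crd : S_CRD := A24.t_CRD A58.t_PROBF A299.t_ORT

/-- **all the moments over the families of divisors** -/
theorem divm : S_DIVM :=
  A182L.t_DIVM lamf lam2 A225.t_SS2 A81.t_CNT A81.t_PI A58.t_COL2 crd

end Pool.Agent.Q269.DX
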