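import Pool.Agent.Q269.DX.Cr2

/-!
# Project DX: one set of polynomials of density one
-/

set_option autoImplicit false
set_option linter.all false

open scoped Classical
open Finset Polynomial Filter Topology

namespace Pool.Agent.Q269.DX

open Pool.Agent.Q269.GR (Dn mem_Dn' pr F2 S_PRD)
open Pool.Agent.Q269.GJ (Ip)

section dp

variable {k : Type} [Field k] [Fintype k]

/-- the part prime to `Δ` -/
noncomputable def dp (Δ D : k[X]) : k[X] := ∏ P ∈ (pr D).filter (fun P => ¬ P ∣ Δ), P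

/-- the primes dividing `Δ` -/
noncomputable def gs (Δ D : k[X]) : Finset k[X] := (pr D).filter fun P => P ∣ Δ

variable {Δ D : k[X]} {m : ℕ}

theorem mem_one : D ∈ Dn (1 : k[X]) m ↔ (D.Monic ∧ D.natDegree = m) ∧ Squarefree D := by
  rw [mem_Dn']
  exact ⟨fun h => ⟨h.1, h.2.1⟩, fun h => ⟨h.1, h.2, isCoprime_one_right⟩⟩

theorem pr_mem (hPRD : S_PRD) (hD : D ∈ Dn (1 : k[X]) m) (P : k[X]) :
    P ∈ pr D ↔ P.Monic ∧ Irreducible P ∧ P ∣ D := ((hPRD k 1 one_ne_zero).2.1 m D hD).2.2 P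

theorem gp_dp (hPRD : S_PRD) (hD : D ∈ Dn (1 : k[X]) m) : (∏ P ∈ gs Δ D, P) * dp Δ D = D := by
  unfold gs dp
  rw [prod_filter_mul_prod_filter_not]
  exact ((hPRD k 1 one_ne_zero).2.1 m D hD).1

theorem dp_mem (hPRD : S_PRD) (hD : D ∈ Dn (1 : k[X]) m) : dp Δ D ∈ Dn Δ (dp Δ D).natDegree := by
  have h1 := pr_mem hPRD hD
  have h2 := gp_dp (Δ := Δ) hPRD hD
  have h3 := mem_one.1 hD
  refine mem_Dn'.2 ⟨⟨monic_prod_of_monic _ _ fun P hP => ((h1 P).1 (mem_filter.1 hP).1).1, rfl⟩,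
    h3.2.squarefree_of_dvd (Dvd.intro_left _ h2), ?_⟩
  refine IsCoprime.prod_left fun P hP => ?_
  have hP' := mem_filter.1 hP
  exact (((h1 P).1 hP'.1).2.1.coprime_iff_not_dvd).2 hP'.2

theorem gs_mem (hPRD : S_PRD) (hΔ : Δ ≠ 0) (hD : D ∈ Dn (1 : k[X]) m) : gs Δ D ∈ (pr Δ).powerset := by
  rw [mem_powerset]
  intro P hP
  have hP' := mem_filter.1 hP
  have h1 := (pr_mem hPRD hD P).1 hP'.1
  exact ((hPRD k Δ hΔ).2.2.2.2.1 P).2 ⟨h1.1, h1.2.1, hP'.2⟩

theorem deg_eq (hPRD : S_PRD) (hD : D ∈ Dn (1 : k[X]) m) :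
    (∏ P ∈ gs Δ D, P).natDegree + (dp Δ D).natDegree = m := by
  have h1 := gp_dp (Δ := Δ) hPRD hD
  have h3 := mem_one.1 hD
  have h4 : (∏ P ∈ gs Δ D, P) ≠ 0 := by
    intro h
    rw [h, zero_mul] at h1
    exact h3.1.1.ne_zero h1.symm
  have h5 : dp Δ D ≠ 0 := by
    intro h
    rw [h, mul_zero] at h1
    exact h3.1.1.ne_zero h1.symm
  rw [← natDegree_mul h4 h5, h1]
  exact h3.1.2

/-- the bound for the degree of the divisors of `Δ` -/
theorem deg_gs (hPRD : S_PRD) (hΔ : Δ ≠ 0) {T : Finset k[X]} (hT : T ∈ (pr Δ).powerset) :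
    (∏ P ∈ T, P).natDegree ≤ ∑ P ∈ pr Δ, P.natDegree := by
  rw [mem_powerset] at hT
  rw [natDegree_prod_of_monic _ _ fun P hP => (((hPRD k Δ hΔ).2.2.2.2.1 P).1 (hT hP)).1]
  exact sum_le_sum_of_subset hT

theorem q_pos : (0 : ℝ) < Fintype.card k := by
  have : 0 < Fintype.card k := Fintype.card_pos
  exact_mod_cast this

theorem q_one : (1 : ℝ) ≤ Fintype.card k := by
  have : 1 ≤ Fintype.card k := Fintype.card_pos
  exact_mod_cast this

/-- **from the polynomials prime to `Δ` to all squarefree polynomials** -/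
theorem ext_dp (hPRD : S_PRD) (hΔ : Δ ≠ 0) (T : k[X] → Prop)
    (h : ∀ ε : ℝ, 0 < ε → ∀ᶠ m : ℕ in atTop, (((Dn Δ m).filter fun D => T D).card : ℝ) ≤ ε * (Fintype.card k : ℝ) ^ m)
    (ε : ℝ) (hε : 0 < ε) :
    ∀ᶠ m : ℕ in atTop, (((Dn (1 : k[X]) m).filter fun D => T (dp Δ D)).card : ℝ) ≤ ε * (Fintype.card k : ℝ) ^ m := by
  obtain ⟨W, hW⟩ : ∃ W : ℝ, W = (((pr Δ).powerset.card : ℕ) : ℝ) := ⟨_, rfl⟩
  have hW0 : 0 < W := by
    rw [hW]
    have : 0 < (pr Δ).powerset.card := card_pos.2 ⟨∅, empty_mem_powerset _⟩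
    exact_mod_cast this
  obtain ⟨m0, h1⟩ := eventually_atTop.1 (h (ε / W) (div_pos hε hW0))
  rw [eventually_atTop]
  refine ⟨m0 + ∑ P ∈ pr Δ, P.natDegree, fun m hm => ?_⟩
  have h2 : ((Dn (1 : k[X]) m).filter fun D => T (dp Δ D)).card =
      ∑ S ∈ (pr Δ).powerset, (((Dn (1 : k[X]) m).filter fun D => T (dp Δ D)).filter fun D => gs Δ D = S).card :=
    card_eq_sum_card_fiberwise fun D hD => gs_mem hPRD hΔ (mem_filter.1 hD).1
  rw [h2]
  push_cast
  have h3 : ∀ S ∈ (pr Δ).powerset,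
      ((((Dn (1 : k[X]) m).filter fun D => T (dp Δ D)).filter fun D => gs Δ D = S).card : ℝ) ≤
        ε / W * (Fintype.card k : ℝ) ^ m := by
    intro S hS
    have hdeg := deg_gs hPRD hΔ hS
    have h4 : (((Dn (1 : k[X]) m).filter fun D => T (dp Δ D)).filter fun D => gs Δ D = S).card ≤
        ((Dn Δ (m - (∏ P ∈ S, P).natDegree)).filter fun D => T D).card := by
      refine card_le_card_of_injOn (dp Δ) ?_ ?_
      · intro D hD
        obtain ⟨hD1, hD2⟩ := mem_filter.1 hD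
        obtain ⟨hD3, hD4⟩ := mem_filter.1 hD1
        have h5 := deg_eq (Δ := Δ) hPRD hD3
        rw [hD2] at h5
        have h6 := dp_mem (Δ := Δ) hPRD hD3
        have h7 : (dp Δ D).natDegree = m - (∏ P ∈ S, P).natDegree := by omega
        rw [mem_coe, mem_filter]
        exact ⟨h7 ▸ h6, hD4⟩
      · intro D hD D' hD' hDD
        obtain ⟨hD1, hD2⟩ := mem_filter.1 hD
        obtain ⟨hD1', hD2'⟩ := mem_filter.1 hD'
        have h5 := gp_dp (Δ := Δ) hPRD (mem_filter.1 hD1).1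
        have h5' := gp_dp (Δ := Δ) hPRD (mem_filter.1 hD1').1
        rw [← h5, ← h5', hD2, hD2', hDD]
    have h5 := h1 (m - (∏ P ∈ S, P).natDegree) (by omega)
    have h6 : (Fintype.card k : ℝ) ^ (m - (∏ P ∈ S, P).natDegree) ≤ (Fintype.card k : ℝ) ^ m :=
      pow_le_pow_right₀ q_one (Nat.sub_le _ _)
    calc _ ≤ (((Dn Δ (m - (∏ P ∈ S, P).natDegree)).filter fun D => T D).card : ℝ) := by exact_mod_cast h4
      _ ≤ ε / W * (Fintype.card k : ℝ) ^ (m - (∏ P ∈ S, P).natDegree) := h5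
      _ ≤ ε / W * (Fintype.card k : ℝ) ^ m := mul_le_mul_of_nonneg_left h6 (div_pos hε hW0).le
  refine (sum_le_sum h3).trans (le_of_eq ?_)
  rw [sum_const, nsmul_eq_mul, ← hW]
  field_simp

end dp

section diag

variable {α : Type} (X : ℕ → Finset α) (q : ℕ → ℝ)

/-- **one set for countably many properties** -/
theorem one_set (hq : ∀ m, 0 ≤ q m) (dg : α → ℕ) (hdg : ∀ m, ∀ D ∈ X m, dg D = m) (B : ℕ → α → Prop)
    (h : ∀ i, ∀ ε : ℝ, 0 < ε → ∀ᶠ m : ℕ in atTop, (((X m).filter (B i)).card : ℝ) ≤ ε * q m) :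
    ∃ S : α → Prop, (∀ ε : ℝ, 0 < ε → ∀ᶠ m : ℕ in atTop, (((X m).filter fun D => ¬ S D).card : ℝ) ≤ ε * q m) ∧
      ∀ i, ∃ m0 : ℕ, ∀ D, m0 ≤ dg D → S D → ¬ B i D := by
  have h1 : ∀ i, ∃ M : ℕ, ∀ m, M ≤ m → (((X m).filter (B i)).card : ℝ) ≤ (1 / 2) ^ i * q m := by
    intro i
    exact eventually_atTop.1 (h i ((1 / 2) ^ i) (by positivity))
  choose M0 hM0 using h1
  obtain ⟨M, hM⟩ : ∃ M : ℕ → ℕ, M = fun i => max (M0 i) i := ⟨_, rfl⟩
  have hMi : ∀ i, i ≤ M i := fun i => by rw [hM]; exact le_max_right _ _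
  have hMM : ∀ i, M0 i ≤ M i := fun i => by rw [hM]; exact le_max_left _ _
  refine ⟨fun D => ∀ i, M i ≤ dg D → ¬ B i D, ?_, fun i => ⟨M i, fun D hD hS => hS i hD⟩⟩
  intro ε hε
  obtain ⟨I, hI⟩ : ∃ I : ℕ, 2 * (1 / 2 : ℝ) ^ I ≤ ε / 2 := by
    obtain ⟨I, hI⟩ := exists_pow_lt_of_lt_one (show (0 : ℝ) < ε / 4 by positivity) (show (1 / 2 : ℝ) < 1 by norm_num)
    exact ⟨I, by linarith⟩
  have h2 : ∀ᶠ m : ℕ in atTop, ∀ i ∈ range I, (((X m).filter (B i)).card : ℝ) ≤ ε / (2 * (I + 1)) * q m := by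
    rw [eventually_all_finset]
    exact fun i _ => h i _ (by positivity)
  filter_upwards [h2] with m hm
  have h3 : (X m).filter (fun D => ¬ ∀ i, M i ≤ dg D → ¬ B i D) ⊆
      ((range (m + 1)).filter fun i => M i ≤ m).biUnion fun i => (X m).filter (B i) := by
    intro D hD
    obtain ⟨hD1, hD2⟩ := mem_filter.1 hD
    push Not at hD2
    obtain ⟨i, hi1, hi2⟩ := hD2
    rw [hdg m D hD1] at hi1
    rw [mem_biUnion]
    refine ⟨i, mem_filter.2 ⟨mem_range.2 ?_, hi1⟩, mem_filter.2 ⟨hD1, hi2⟩⟩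
    have := hMi i
    omega
  have h4 : (((X m).filter (fun D => ¬ ∀ i, M i ≤ dg D → ¬ B i D)).card : ℝ) ≤
      ∑ i ∈ (range (m + 1)).filter (fun i => M i ≤ m), (((X m).filter (B i)).card : ℝ) := by
    have := (card_le_card h3).trans card_biUnion_le
    exact_mod_cast this
  refine h4.trans ?_
  have h5 : ∀ i ∈ (range (m + 1)).filter (fun i => M i ≤ m), (((X m).filter (B i)).card : ℝ) ≤
      (if i < I then ε / (2 * (I + 1)) * q m else 0) + (if i < I then 0 else (1 / 2) ^ i * q m) := by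
    intro i hi
    have hi' := (mem_filter.1 hi).2
    split_ifs with h6
    · rw [add_zero]
      exact hm i (mem_range.2 h6)
    · rw [zero_add]
      exact hM0 i m ((hMM i).trans hi')
  refine (sum_le_sum h5).trans ?_
  rw [sum_add_distrib]
  have h6 : ∑ i ∈ (range (m + 1)).filter (fun i => M i ≤ m), (if i < I then ε / (2 * (I + 1)) * q m else 0) ≤
      ε / 2 * q m := by
    rw [← sum_filter]
    have h7 : ((range (m + 1)).filter (fun i => M i ≤ m)).filter (fun i => i < I) ⊆ range I := by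
      intro i hi
      exact mem_range.2 (mem_filter.1 hi).2
    rw [sum_const, nsmul_eq_mul]
    have h8 : (((((range (m + 1)).filter (fun i => M i ≤ m)).filter (fun i => i < I)).card : ℕ) : ℝ) ≤ I := by
      have := card_le_card h7
      rw [card_range] at this
      exact_mod_cast this
    calc _ ≤ (I : ℝ) * (ε / (2 * (I + 1)) * q m) :=
          mul_le_mul_of_nonneg_right h8 (mul_nonneg (by positivity) (hq m))
      _ = (I / (I + 1)) * (ε / 2 * q m) := by field_simp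
      _ ≤ 1 * (ε / 2 * q m) := by
          refine mul_le_mul_of_nonneg_right ?_ (mul_nonneg (by positivity) (hq m))
          rw [div_le_one (by positivity)]
          linarith
      _ = _ := one_mul _
  have h7 : ∑ i ∈ (range (m + 1)).filter (fun i => M i ≤ m), (if i < I then 0 else (1 / 2 : ℝ) ^ i * q m) ≤
      ε / 2 * q m := by
    have h8 : ∑ i ∈ (range (m + 1)).filter (fun i => M i ≤ m), (if i < I then 0 else (1 / 2 : ℝ) ^ i * q m) ≤
        ∑ i ∈ range (m + 1), (if i < I then 0 else (1 / 2 : ℝ) ^ i * q m) :=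
      sum_le_sum_of_subset_of_nonneg (filter_subset _ _) fun i _ _ => by
        split_ifs
        · exact le_rfl
        · exact mul_nonneg (by positivity) (hq m)
    have h9 : ∑ i ∈ range (m + 1), (if i < I then 0 else (1 / 2 : ℝ) ^ i * q m) ≤
        ∑ j ∈ range (m + 1), (1 / 2 : ℝ) ^ (I + j) * q m := by
      have h10 : ∑ i ∈ range (m + 1), (if i < I then 0 else (1 / 2 : ℝ) ^ i * q m) =
          ∑ i ∈ (range (m + 1)).filter (fun i => ¬ i < I), (1 / 2 : ℝ) ^ i * q m := by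
        rw [sum_filter]
        exact sum_congr rfl fun i _ => by by_cases h : i < I <;> simp [h]
      rw [h10]
      have h11 : (range (m + 1)).filter (fun i => ¬ i < I) ⊆ (range (m + 1)).image fun j => I + j := by
        intro i hi
        obtain ⟨a1, a2⟩ := mem_filter.1 hi
        rw [mem_range] at a1
        exact mem_image.2 ⟨i - I, mem_range.2 (by omega), by omega⟩
      refine (sum_le_sum_of_subset_of_nonneg h11 fun i _ _ => mul_nonneg (by positivity) (hq m)).trans ?_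
      rw [sum_image fun x _ y _ hxy => by simpa using hxy]
    refine h8.trans (h9.trans ?_)
    have h12 : ∑ j ∈ range (m + 1), (1 / 2 : ℝ) ^ (I + j) * q m =
        (1 / 2 : ℝ) ^ I * (∑ j ∈ range (m + 1), (1 / 2 : ℝ) ^ j) * q m := by
      rw [mul_sum, sum_mul]
      exact sum_congr rfl fun j _ => by rw [pow_add]
    have h13 : ∑ j ∈ range (m + 1), (1 / 2 : ℝ) ^ j ≤ 2 := sum_geometric_two_le _
    rw [h12]
    refine mul_le_mul_of_nonneg_right ?_ (hq m)
    calc (1 / 2 : ℝ) ^ I * (∑ j ∈ range (m + 1), (1 / 2 : ℝ) ^ j) ≤ (1 / 2 : ℝ) ^ I * 2 :=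
          mul_le_mul_of_nonneg_left h13 (by positivity)
      _ ≤ ε / 2 := by linarith
  calc _ ≤ ε / 2 * q m + ε / 2 * q m := add_le_add h6 h7
    _ = ε * q m := by ring

end diag

end Pool.Agent.Q269.DX
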