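import Pool.Agent.Q269.DX.One

/-!
# Project DX: one set of polynomials of density one for all families
-/

set_option autoImplicit false
set_option linter.all false

open scoped Classical
open Finset Polynomial Filter Topology

namespace Pool.Agent.Q269.DX

open Pool.Agent.Q269.DX.JQ Pool.Agent.Q269.DX.LD
open Pool.Agent.Y164.HG (Geo Del Tau QQ)
open Pool.Agent.Q269.GR (Dn mem_Dn' pr F2 S_PRD)
open Pool.Agent.Q269.GJ (Ip)
open Pool.Agent.Q269.SX (kD)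

section

variable {k : Type} [Field k] [Fintype k]

/-- the property of `D` -/
def TG {R : Type} [Fintype R] {n : R → ℕ} (a : ∀ r, Fin (n r) → k[X]) (N : R → ℕ) {M J : Type} [Fintype M] [Fintype J]
    (e : J → M → ZMod 2) (μ : J → R → ℕ) (ε : ℝ) (D : k[X]) : Prop :=
  ∀ H : ∀ r, Geo (a r) (N r), (∀ r r', r ≠ r' → IsCoprime (Del (a r)) (Del (a r'))) → Function.Injective e →
    (∀ j, e j ≠ 0) → Spn (lbD a D) ∧ ∀ ρ : M → Option (TQ a) → ZMod 2, Aok N e ρ →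
    |∑ τ ∈ Om a ρ D, (∏ j, ∏ r, ∏ i ∈ range (μ j r), ((kD (H r) (dv (e j) τ) : ℝ) - 2 ^ i) -
      ∏ j, ∏ r, (2 : ℝ) ^ (μ j r * (μ j r + 1) / 2))| ≤ ε * (2 ^ Fintype.card M : ℝ) ^ Fintype.card (Ip D)

theorem tg_mono {R : Type} [Fintype R] {n : R → ℕ} {a : ∀ r, Fin (n r) → k[X]} {N : R → ℕ} {M J : Type} [Fintype M]
    [Fintype J] {e : J → M → ZMod 2} {μ : J → R → ℕ} {ε ε' : ℝ} (h : ε ≤ ε') {D : k[X]} (hT : TG a N e μ ε D) :
    TG a N e μ ε' D := by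
  intro H h1 h2 h3
  obtain ⟨g1, g2⟩ := hT H h1 h2 h3
  refine ⟨g1, fun ρ hρ => (g2 ρ hρ).trans ?_⟩
  exact mul_le_mul_of_nonneg_right h (by positivity)

theorem tg_small (hINN : S_INN) (hSPN : S_SPN) (hk : ringChar k ≠ 2) (hm : IsSquare (-1 : k)) {R : Type} [Fintype R]
    {n : R → ℕ} (a : ∀ r, Fin (n r) → k[X]) (N : R → ℕ) {M J : Type} [Fintype M] [Fintype J]
    (e : J → M → ZMod 2) (μ : J → R → ℕ) (ε₀ : ℝ) (hε₀ : 0 < ε₀) (ε : ℝ) (hε : 0 < ε) :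
    ∀ᶠ m : ℕ in atTop, (((Dn (∏ r, Del (a r)) m).filter fun D => ¬ TG a N e μ ε₀ D).card : ℝ) ≤
      ε * (Fintype.card k : ℝ) ^ m := by
  by_cases hc : (∀ r, Geo (a r) (N r)) ∧ (∀ r r', r ≠ r' → IsCoprime (Del (a r)) (Del (a r'))) ∧
      Function.Injective e ∧ (∀ j, e j ≠ 0)
  swap
  · refine Eventually.of_forall fun m => ?_
    have h1 : ((Dn (∏ r, Del (a r)) m).filter fun D => ¬ TG a N e μ ε₀ D) = ∅ := by
      rw [filter_eq_empty_iff]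
      intro D _ h
      exact h fun H g1 g2 g3 => absurd ⟨H, g1, g2, g3⟩ hc
    rw [h1, card_empty, Nat.cast_zero]
    positivity
  obtain ⟨H, hcop, hei, he0⟩ := hc
  obtain ⟨W, hW⟩ : ∃ W : ℝ, W = ((Fintype.card (M → Option (TQ a) → ZMod 2) : ℕ) : ℝ) + 1 := ⟨_, rfl⟩
  have hW0 : 0 < W := by rw [hW]; positivity
  obtain ⟨δ, hδ⟩ : ∃ δ : ℝ, δ = min ε₀ (ε / W) := ⟨_, rfl⟩
  have hδ0 : 0 < δ := by rw [hδ]; exact lt_min hε₀ (div_pos hε hW0)
  have hδ1 : δ ≤ ε₀ := by rw [hδ]; exact min_le_left _ _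
  have hδ2 : δ ≤ ε / W := by rw [hδ]; exact min_le_right _ _
  have h1 := hSPN k R n a N H hm hk hcop δ hδ0
  have h2 : ∀ᶠ m : ℕ in atTop, ∀ ρ ∈ (univ : Finset (M → Option (TQ a) → ZMod 2)), Aok N e ρ →
      (((Dn (∏ r, Del (a r)) m).filter fun D => δ * (2 ^ Fintype.card M : ℝ) ^ Fintype.card (Ip D) <
      |∑ τ ∈ (univ : Finset (Ip D → M → ZMod 2)).filter (fun τ => lbs (lbD a D) τ = ρ),
        (∏ j, ∏ r, ∏ i ∈ range (μ j r), ((kD (H r) (dv (e j) τ) : ℝ) - 2 ^ i) -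
          ∏ j, ∏ r, (2 : ℝ) ^ (μ j r * (μ j r + 1) / 2))|).card : ℝ) ≤ δ * (Fintype.card k : ℝ) ^ m := by
    rw [eventually_all_finset]
    intro ρ _
    by_cases hρ : Aok N e ρ
    · filter_upwards [hINN k R n a N H hm hk hcop M J e hei he0 ρ hρ μ δ hδ0] with m hm' _
      exact hm'
    · exact Eventually.of_forall fun m h => absurd h hρ
  filter_upwards [h1, h2] with m g1 g2
  have h3 : ((Dn (∏ r, Del (a r)) m).filter fun D => ¬ TG a N e μ ε₀ D) ⊆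
      ((Dn (∏ r, Del (a r)) m).filter fun D => ¬ Spn (lbD a D)) ∪
      (univ.filter fun ρ : M → Option (TQ a) → ZMod 2 => Aok N e ρ).biUnion fun ρ =>
        (Dn (∏ r, Del (a r)) m).filter fun D => δ * (2 ^ Fintype.card M : ℝ) ^ Fintype.card (Ip D) <
      |∑ τ ∈ (univ : Finset (Ip D → M → ZMod 2)).filter (fun τ => lbs (lbD a D) τ = ρ),
        (∏ j, ∏ r, ∏ i ∈ range (μ j r), ((kD (H r) (dv (e j) τ) : ℝ) - 2 ^ i) -
          ∏ j, ∏ r, (2 : ℝ) ^ (μ j r * (μ j r + 1) / 2))| := by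
    intro D hD
    obtain ⟨hD1, hD2⟩ := mem_filter.1 hD
    rw [mem_union]
    by_contra hno
    push Not at hno
    obtain ⟨n1, n2⟩ := hno
    apply hD2
    intro H' _ _ _
    refine ⟨?_, fun ρ hρ => ?_⟩
    · by_contra h
      exact n1 (mem_filter.2 ⟨hD1, h⟩)
    · by_contra h
      push Not at h
      apply n2
      rw [mem_biUnion]
      refine ⟨ρ, mem_filter.2 ⟨mem_univ _, hρ⟩, mem_filter.2 ⟨hD1, lt_of_le_of_lt ?_ h⟩⟩
      exact mul_le_mul_of_nonneg_right hδ1 (by positivity)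
  have h4 := (card_le_card h3).trans ((card_union_le _ _).trans (Nat.add_le_add_left card_biUnion_le _))
  have h5 : (((Dn (∏ r, Del (a r)) m).filter fun D => ¬ TG a N e μ ε₀ D).card : ℝ) ≤
      (((Dn (∏ r, Del (a r)) m).filter fun D => ¬ Spn (lbD a D)).card : ℝ) +
      ∑ ρ ∈ univ.filter (fun ρ : M → Option (TQ a) → ZMod 2 => Aok N e ρ),
        (((Dn (∏ r, Del (a r)) m).filter fun D => δ * (2 ^ Fintype.card M : ℝ) ^ Fintype.card (Ip D) <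
      |∑ τ ∈ (univ : Finset (Ip D → M → ZMod 2)).filter (fun τ => lbs (lbD a D) τ = ρ),
        (∏ j, ∏ r, ∏ i ∈ range (μ j r), ((kD (H r) (dv (e j) τ) : ℝ) - 2 ^ i) -
          ∏ j, ∏ r, (2 : ℝ) ^ (μ j r * (μ j r + 1) / 2))|).card : ℝ) := by
    exact_mod_cast h4
  refine h5.trans ?_
  have h6 := sum_le_sum (s := univ.filter (fun ρ : M → Option (TQ a) → ZMod 2 => Aok N e ρ))
    (g := fun _ => δ * (Fintype.card k : ℝ) ^ m) fun ρ hρ => g2 ρ (mem_univ _) (mem_filter.1 hρ).2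
  refine (add_le_add g1 h6).trans ?_
  rw [sum_const, nsmul_eq_mul]
  have h7 : (((univ.filter (fun ρ : M → Option (TQ a) → ZMod 2 => Aok N e ρ)).card : ℕ) : ℝ) ≤
      ((Fintype.card (M → Option (TQ a) → ZMod 2) : ℕ) : ℝ) := by
    exact_mod_cast card_le_univ _
  have hq : 0 ≤ (Fintype.card k : ℝ) ^ m := by positivity
  calc δ * (Fintype.card k : ℝ) ^ m +
        (((univ.filter (fun ρ : M → Option (TQ a) → ZMod 2 => Aok N e ρ)).card : ℕ) : ℝ) * (δ * (Fintype.card k : ℝ) ^ m)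
      ≤ δ * (Fintype.card k : ℝ) ^ m + ((Fintype.card (M → Option (TQ a) → ZMod 2) : ℕ) : ℝ) *
        (δ * (Fintype.card k : ℝ) ^ m) := by gcongr
    _ = W * δ * (Fintype.card k : ℝ) ^ m := by rw [hW]; ring
    _ ≤ W * (ε / W) * (Fintype.card k : ℝ) ^ m := by gcongr
    _ = ε * (Fintype.card k : ℝ) ^ m := by field_simp

/-- the data -/
abbrev Dt (k : Type) [Field k] : Type :=
  Σ l : ℕ, Σ n : Fin l → ℕ, (∀ r, Fin (n r) → k[X]) × (Fin l → ℕ) ×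
    (Σ m' : ℕ, Σ j' : ℕ, (Fin j' → Fin m' → ZMod 2) × (Fin j' → Fin l → ℕ)) × ℕ

theorem dt_ctb : Countable (Dt k) := by
  haveI : Countable k[X] :=
    Cardinal.mk_le_aleph0_iff.1 (Polynomial.cardinalMk_le_max.trans (max_le Cardinal.mk_le_aleph0 le_rfl))
  haveI : Countable (ZMod 2) := Finite.to_countable
  haveI h1 : ∀ l : ℕ, ∀ n : Fin l → ℕ, Countable (∀ r, Fin (n r) → k[X]) := fun l n => inferInstance
  haveI h2 : Countable (Σ m' : ℕ, Σ j' : ℕ, (Fin j' → Fin m' → ZMod 2) × (Fin j' → Fin 0 → ℕ)) := inferInstance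
  haveI h3 : ∀ l : ℕ, Countable (Σ m' : ℕ, Σ j' : ℕ, (Fin j' → Fin m' → ZMod 2) × (Fin j' → Fin l → ℕ)) :=
    fun l => inferInstance
  haveI h4 : ∀ l : ℕ, ∀ n : Fin l → ℕ, Countable ((∀ r, Fin (n r) → k[X]) × (Fin l → ℕ) ×
    (Σ m' : ℕ, Σ j' : ℕ, (Fin j' → Fin m' → ZMod 2) × (Fin j' → Fin l → ℕ)) × ℕ) := fun l n => inferInstance
  haveI h5 : ∀ l : ℕ, Countable (Σ n : Fin l → ℕ, (∀ r, Fin (n r) → k[X]) × (Fin l → ℕ) ×
    (Σ m' : ℕ, Σ j' : ℕ, (Fin j' → Fin m' → ZMod 2) × (Fin j' → Fin l → ℕ)) × ℕ) := fun l => inferInstance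
  infer_instance

/-- the bad sets -/
def Bd : Dt k → k[X] → Prop
  | ⟨_, _, a, N, ⟨_, _, e, μ⟩, t⟩ => fun D =>
    (∏ r, Del (a r)) ≠ 0 ∧ ¬ TG a N e μ (1 / ((t : ℝ) + 1)) (dp (∏ r, Del (a r)) D)

theorem bd_small' (hINN : S_INN) (hSPN : S_SPN) (hPRD : S_PRD) (hk : ringChar k ≠ 2) (hm : IsSquare (-1 : k))
    {R : Type} [Fintype R] {n : R → ℕ} (a : ∀ r, Fin (n r) → k[X]) (N : R → ℕ) {M J : Type} [Fintype M] [Fintype J]
    (e : J → M → ZMod 2) (μ : J → R → ℕ) (ε₀ : ℝ) (hε₀ : 0 < ε₀) (i : DecidablePred fun D => (∏ r, Del (a r)) ≠ 0 ∧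
        ¬ TG a N e μ ε₀ (dp (∏ r, Del (a r)) D)) (ε : ℝ) (hε : 0 < ε) :
    ∀ᶠ m : ℕ in atTop, (((@Finset.filter _ (fun D => (∏ r, Del (a r)) ≠ 0 ∧
        ¬ TG a N e μ ε₀ (dp (∏ r, Del (a r)) D)) i (Dn (1 : k[X]) m)).card : ℕ) : ℝ) ≤
          ε * (Fintype.card k : ℝ) ^ m := by
  by_cases hΔ : (∏ r, Del (a r)) ≠ 0
  · have h1 := ext_dp hPRD hΔ (fun D => ¬ TG a N e μ ε₀ D)
      (fun ε' hε' => by
        filter_upwards [tg_small hINN hSPN hk hm a N e μ ε₀ hε₀ ε' hε'] with m h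
        refine le_trans (le_of_eq ?_) h
        congr 1
        exact Pool.Agent.Q269.SX.Lv.fil_card _ _ _ _ _ fun D => Iff.rfl) ε hε
    filter_upwards [h1] with m h2
    refine le_trans (le_of_eq ?_) h2
    congr 1
    exact Pool.Agent.Q269.SX.Lv.fil_card _ _ _ _ _ fun D => ⟨fun h => h.2, fun h => ⟨hΔ, h⟩⟩
  · refine Eventually.of_forall fun m => ?_
    have h1 : (@Finset.filter _ (fun D => (∏ r, Del (a r)) ≠ 0 ∧
        ¬ TG a N e μ ε₀ (dp (∏ r, Del (a r)) D)) i (Dn (1 : k[X]) m)) = ∅ := by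
      rw [filter_eq_empty_iff]
      intro D _ h
      exact hΔ h.1
    rw [h1, card_empty, Nat.cast_zero]
    positivity

theorem bd_small (hINN : S_INN) (hSPN : S_SPN) (hPRD : S_PRD) (hk : ringChar k ≠ 2) (hm : IsSquare (-1 : k))
    (δ : Dt k) (ε : ℝ) (hε : 0 < ε) :
    ∀ᶠ m : ℕ in atTop, (((Dn (1 : k[X]) m).filter (Bd δ)).card : ℝ) ≤ ε * (Fintype.card k : ℝ) ^ m := by
  obtain ⟨l, n, a, N, ⟨m', j', e, μ⟩, t⟩ := δ
  have h0 : (0 : ℝ) < 1 / ((t : ℝ) + 1) := by positivity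
  exact bd_small' hINN hSPN hPRD hk hm a N e μ (1 / ((t : ℝ) + 1)) h0 _ ε hε

/-- the filter of the `D` in `S` whose degree tends to infinity -/
noncomputable def lS (S : k[X] → Prop) : Filter k[X] :=
  comap natDegree atTop ⊓ 𝓟 {D | D ∈ Dn (1 : k[X]) D.natDegree ∧ S D}

theorem lS_mem (S : k[X] → Prop) : ∀ᶠ D in lS S, D ∈ Dn (1 : k[X]) D.natDegree := by
  rw [lS, eventually_inf_principal]
  exact Eventually.of_forall fun D h => h.1

theorem lS_deg (S : k[X] → Prop) (m0 : ℕ) : ∀ᶠ D in lS S, m0 ≤ D.natDegree := by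
  rw [lS, eventually_inf_principal]
  filter_upwards [(eventually_ge_atTop m0).comap natDegree] with D h _
  exact h

/-- **one set for all families** -/
theorem one_setX (hINN : S_INN) (hSPN : S_SPN) (hPRD : S_PRD) (hk : ringChar k ≠ 2) (hm : IsSquare (-1 : k)) :
    ∃ S : k[X] → Prop, (∀ ε : ℝ, 0 < ε → ∀ᶠ m : ℕ in atTop,
      (((Dn (1 : k[X]) m).filter fun D => ¬ S D).card : ℝ) ≤ ε * (Fintype.card k : ℝ) ^ m) ∧
      ∀ (l : ℕ) (n : Fin l → ℕ) (a : ∀ r, Fin (n r) → k[X]) (N : Fin l → ℕ) (H : ∀ r, Geo (a r) (N r)),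
        (∀ r r', r ≠ r' → IsCoprime (Del (a r)) (Del (a r'))) → ∀ (m' j' : ℕ) (e : Fin j' → Fin m' → ZMod 2),
        Function.Injective e → (∀ j, e j ≠ 0) → Nice H e (Filter.map (dp (∏ r, Del (a r))) (lS S)) := by
  haveI : Nonempty (Dt k) :=
    ⟨⟨0, fun r => r.elim0, fun r => r.elim0, fun r => r.elim0, ⟨0, 0, fun r => r.elim0, fun r => r.elim0⟩, 0⟩⟩
  haveI := dt_ctb (k := k)
  obtain ⟨g, hg⟩ := exists_surjective_nat (Dt k)
  obtain ⟨S, hS1, hS2⟩ := one_set (fun m => Dn (1 : k[X]) m) (fun m => (Fintype.card k : ℝ) ^ m)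
    (fun m => by positivity) natDegree (fun m D hD => (mem_Dn'.1 hD).1.2) (fun i => Bd (g i))
    fun i ε hε => bd_small hINN hSPN hPRD hk hm (g i) ε hε
  refine ⟨S, hS1, ?_⟩
  intro l n a N H hcop m' j' e hei he0
  have hΔ := prd_ne H
  have key : ∀ (μ : Fin j' → Fin l → ℕ) (t : ℕ), ∀ᶠ D in lS S, TG a N e μ (1 / ((t : ℝ) + 1)) (dp (∏ r, Del (a r)) D) := by
    intro μ t
    obtain ⟨i, hi⟩ := hg ⟨l, n, a, N, ⟨m', j', e, μ⟩, t⟩
    obtain ⟨m0, h1⟩ := hS2 i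
    rw [lS, eventually_inf_principal]
    filter_upwards [(eventually_ge_atTop m0).comap natDegree] with D h3 h4
    have h5 := h1 D h3 h4.2
    rw [hi] at h5
    by_contra h6
    exact h5 ⟨hΔ, h6⟩
  refine ⟨?_, ?_, ?_⟩
  · rw [eventually_map]
    filter_upwards [lS_mem S] with D hD
    exact dp_mem hPRD hD
  · rw [eventually_map]
    filter_upwards [key (fun _ _ => 0) 0] with D hD
    exact (hD H hcop hei he0).1
  · intro ρ hρ μ ε hε
    rw [eventually_map]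
    obtain ⟨t, ht⟩ := exists_nat_gt (1 / ε)
    have h6 : 1 / ((t : ℝ) + 1) ≤ ε := by
      rw [div_le_iff₀ (by positivity)]
      rw [div_lt_iff₀ hε] at ht
      linarith
    filter_upwards [key μ t] with D hD
    exact ((tg_mono h6 hD) H hcop hei he0).2 ρ hρ

end

end Pool.Agent.Q269.DX
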