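import Pool.Agent.Q269.DX.Fa
import Pool.Agent.Q269.SX.StR
import Pool.Agent.Y164.HG.Main

/-!
# Project DX: the divisors of almost every polynomial

`Pool/Agent/Q269/DX/JQ/*`, `LD/*`, `A*/*` are a copy of the abstract theory of the projects JQ and LD (helper44 and coauthors) for symmetric symbols
(`-1` is a square): everywhere the value of a label at the sign `s₀` is replaced by `ze _ _ = 0`. The main result is `divm : S_DIVM` (`Pool/Agent/Q269/DX/Fa.lean`).
This file contains the statements of the jobs: part A: the data attached to a family (`DJ`), part B: tuples of primes in cells, part C: all polynomials.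
-/

set_option autoImplicit false
set_option linter.all false

open scoped Classical
open Finset Polynomial Filter Topology

namespace Pool.Agent.Q269.DX

open Pool.Agent.Q269.DX.Bs (prs ext ze)
open Pool.Agent.Q269.DX.JQ Pool.Agent.Q269.DX.LD
open Pool.Agent.H341R2.Sharp (lam)
open Pool.Agent.Y164.PS (L Fam Sf mem_Sf pf mem_pf sm Pr mem_Pr)
open Pool.Agent.Y164.HG (Dat Symp om om_add_left om_add_right om_smul_left om_smul_right E1 E2 kc V EW Geo Del Tau QQ AT BT ok nb dQ et)
open Pool.Agent.Q269.GR (Dn)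
open Pool.Agent.Q269.GJ (Ip)
open Pool.Agent.Q269.SX (kD sgD)

/-! ### Part A: the data of a family -/

section dj

variable {W : Type} [AddCommGroup W] [Module (ZMod 2) W] [Symp W] {τ₀ τ : Type} [Fintype τ₀] [Fintype τ]

/-- the form as a bilinear map -/
noncomputable def omL : W →ₗ[ZMod 2] W →ₗ[ZMod 2] ZMod 2 :=
  LinearMap.mk₂ (ZMod 2) (fun x y => om x y) om_add_left om_smul_left om_add_right
    (fun c x y => om_smul_right c x y)

theorem ks_smul (D : Dat W τ₀) (c : ZMod 2) (x : W) : D.ks (c • x) = c • D.ks x := by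
  have h0 : D.ks 0 = 0 := by
    have h := D.ks_add 0 0
    rw [add_zero] at h
    exact left_eq_add.1 h
  rcases Pool.Agent.Y164.HG.F2_cases c with h | h
  · rw [h, zero_smul, zero_smul, h0]
  · rw [h, one_smul, one_smul]

/-- the operators: `none` is the degree, `some (j s)` the bad prime `s` of the family -/
noncomputable def TJ (D : Dat W τ₀) (j : τ₀ → τ) : (Option τ → ZMod 2) →ₗ[ZMod 2] W →ₗ[ZMod 2] W :=
  LinearMap.mk₂ (ZMod 2) (fun φ x => φ none • D.ks x + ∑ s, φ (some (j s)) • (om x (D.t s) • D.t s))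
    (fun φ φ' x => by
      simp only [Pi.add_apply, add_smul, sum_add_distrib]
      abel)
    (fun c φ x => by
      simp only [Pi.smul_apply, smul_eq_mul, mul_smul, smul_add, smul_sum])
    (fun φ x y => by
      simp only [D.ks_add, om_add_left, add_smul, smul_add, sum_add_distrib]
      abel)
    (fun c φ x => by
      simp only [ks_smul, om_smul_left, mul_smul, smul_add, smul_sum]
      congr 1
      · rw [smul_comm]
      · exact sum_congr rfl fun s _ => smul_comm _ _ _)

/-- the condition on the class `(δ, ψ)`, with exponents `a` -/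
def LJc (D : Dat W τ₀) (j : τ₀ → τ) (y : (Option τ → W) × (Option τ → W)) (a : τ₀ → ZMod 2) : Prop :=
  (∀ x, x ∉ Set.range j → y.1 (some x) = 0) ∧ (∀ s, y.1 (some (j s)) = a s • D.t s) ∧
  y.1 none = D.ks (y.2 none + ∑ s, (D.e s * a s) • D.t s) ∧
  ∀ s, D.sp s * a s + om (y.2 (some (j s))) (D.t s) + ∑ s', D.G s s' * (a s' * om (D.t s') (D.t s)) +
    D.e s * om (y.1 none) (D.t s) = 0

/-- the subspace -/
noncomputable def LJ (D : Dat W τ₀) (j : τ₀ → τ) : Submodule (ZMod 2) ((Option τ → W) × (Option τ → W)) where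
  carrier := {y | ∃ a, LJc D j y a}
  zero_mem' := by
    refine ⟨0, fun x _ => rfl, fun s => ?_, ?_, fun s => ?_⟩
    · simp
    · have h0 : D.ks 0 = 0 := by
        have h := D.ks_add 0 0
        rw [add_zero] at h
        exact left_eq_add.1 h
      simp [h0]
    · simp [Pool.Agent.Y164.HG.om_zero_left]
  add_mem' := by
    rintro y y' ⟨a, h1, h2, h3, h4⟩ ⟨a', h1', h2', h3', h4'⟩
    refine ⟨a + a', fun x hx => ?_, fun s => ?_, ?_, fun s => ?_⟩
    · rw [Prod.fst_add, Pi.add_apply, h1 x hx, h1' x hx, add_zero]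
    · rw [Prod.fst_add, Pi.add_apply, h2, h2', Pi.add_apply, add_smul]
    · rw [Prod.fst_add, Pi.add_apply, h3, h3', ← D.ks_add]
      congr 1
      simp only [Prod.snd_add, Pi.add_apply, mul_add, add_smul, sum_add_distrib]
      abel
    · have h5 := h4 s
      have h6 := h4' s
      simp only [Prod.fst_add, Prod.snd_add, Pi.add_apply, om_add_left, mul_add, add_mul, sum_add_distrib] at h5 h6 ⊢
      linear_combination h5 + h6
  smul_mem' := by
    rintro c y ⟨a, h1, h2, h3, h4⟩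
    refine ⟨c • a, fun x hx => ?_, fun s => ?_, ?_, fun s => ?_⟩
    · rw [Prod.smul_fst, Pi.smul_apply, h1 x hx, smul_zero]
    · rw [Prod.smul_fst, Pi.smul_apply, h2, Pi.smul_apply, smul_eq_mul, mul_smul]
    · rw [Prod.smul_fst, Pi.smul_apply, h3, ← ks_smul]
      congr 1
      simp only [Prod.smul_snd, Pi.smul_apply, smul_eq_mul, smul_add, smul_sum, smul_smul]
      congr 1
      exact sum_congr rfl fun s _ => by congr 1; ring
    · have h5 := h4 s
      simp only [Prod.smul_fst, Prod.smul_snd, Pi.smul_apply, om_smul_left, smul_eq_mul] at h5 ⊢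
      have h6 : ∑ s', D.G s s' * (c * a s' * om (D.t s') (D.t s)) =
          c * ∑ s', D.G s s' * (a s' * om (D.t s') (D.t s)) := by
        rw [mul_sum]
        exact sum_congr rfl fun s' _ => by ring
      rw [h6]
      linear_combination c * h5

/-- the data of the family -/
noncomputable def DJ (D : Dat W τ₀) (j : τ₀ → τ) : Dj (Option τ) W where
  ω := omL
  T := TJ D j
  s₀ := none
  𝓛 := LJ D j

end dj

/-- **JOB DX-OKD.** The data satisfy the conditions. (`theorem t_OKD : S_OKD`.)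
Proof. `Dj`, `Dj.q`, `Sym`, `Ok`: `Pool/Agent/Q269/DX/JQ/Stm.lean`; in `adj` the term `ze _ _` is zero by definition (`unfold ze` or `rfl`). `alt`: `om_self`. `adj`: `ks_comm`, `om_comm`. `nd`: `eq_zero_of_om`.
`card`: the elements of `LJ D j` correspond to `(a, ψ)`, `ψ : Option τ → W` with the condition at `s` a condition on `om (ψ (some (j s))) (D.t s)`, given `a` and `ψ none`; a level set of the nonzero linear form
`om · (D.t s)` has `#W/2` elements, and the number of the `a` is `2 ^ #τ₀`; `j` is injective; `a` is determined by `δ` because `D.t s ≠ 0`. So `#W * #W ^ (#τ - #τ₀) * (#W/2) ^ #τ₀ * 2 ^ #τ₀ = #W ^ (#τ + 1)`.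
`sing`: with `c s = om (ψ_s) (t s)`, `E = ∑ (e s * a s) • t s`, `q y = om ψ_∞ (ks (ψ_∞ + E)) + om ψ_∞ (ks ψ_∞) + ∑ (a s + 1) c s` (`T (single (some (j s)) 1) x = om x (t s) • t s`, zero at the other labels, `F2_sq`),
the fourth condition for `c s`, `(a s + 1) * a s = 0`, `∑ s s', a s a s' G s s' om (t s') (t s) = 0` (symmetric, zero on the diagonal; see `hswap'` in the proof of `FF_diag`, `Pool/Agent/Y164/HG/Form.lean`),
`∑ e s • t s = 0` (`D.h3`), `om (ks x) y = om (ks y) x`, and `∑_s G s' s * om (t s') (t s) = e s' * om (t s') uu` by `D.h1 s' (t s')`, `F2_sq`, `ks_self` (see `h7` in that proof), `om (ks E) E = om E uu = ∑ e s a s om (t s) uu`: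
everything cancels. `tor`: `a s = om x (t s)`; `ρ none • x + ∑ (e s * om x (t s)) • t s = (ρ none + N) • x = x` by `D.h4`; the fourth condition is `D.h1 s x` and the hypothesis on `ρ` (as in `E2_TT`). -/
def S_OKD : Prop := ∀ (W : Type) [AddCommGroup W] [Module (ZMod 2) W] [Finite W] [Symp W] (τ₀ τ : Type) [Fintype τ₀] [Fintype τ]
  (D : Dat W τ₀) (j : τ₀ → τ), Function.Injective j → (∀ s, D.t s ≠ 0) → ∀ ρ : Option τ → ZMod 2,
  (∀ s, D.sp s + ρ (some (j s)) + D.g s = 0) → ρ none + D.N = 1 → (DJ D j).Ok ρ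

/-- **JOB DX-SLJ.** The system is that of the kernel. (`theorem t_SLJ (h : Pool.Agent.Q269.SX.S_CNT) : S_SLJ`.)
Proof. `(δ, x) ↦ (w, x0)`, `w = (x, a)` (`a` determined by `δ` because `t s ≠ 0`), `x0 = δ none`, is a bijection of `Sel (DJ D j) N h` onto the set of the `(w, x0)` with `E1 = 0`, `E2 = 0` in `SX.S_CNT`
(`Pool/Agent/Q269/SX/St.lean`): the rows are `E1` (`T (h p) (x p) = d p • ks (x p) + ∑ B p s • om (x p) (t s) • t s`, `∑_t h p t • δ t = d p • δ none + ∑ B p s • a s • t s` because `δ (some x) = 0` for `x` not in the range of `j`;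
the diagonal of `N` does not matter), the fourth condition is `E2` (`ψ (some (j s)) = ∑ B i s • x i`), the third condition is `x0 = ks (dg w)` (`dg`: `Form.lean`). Conversely every `(w, x0)` with `E1 = E2 = 0` satisfies `x0 = ks (dg w)`:
put `y = dg w`, `w₁ = w + TT y`, `x₁ = x0 + ks y` (`E1_add`, `E1_TT`, `E2_TT`, `dg_TT`): `dg w₁ = 0` and `(w₁, x₁)` is a solution; for all `z`: `om x₁ z = om x₁ (dg (TT z)) = FF w₁ (TT z) = FF (TT z) w₁ = om (ks z) (dg w₁) = 0`
(`FF_eq` twice, `FF_comm`), so `x₁ = 0`. Then `S_CNT` gives the number. -/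
def S_SLJ : Prop := ∀ (W : Type) [AddCommGroup W] [Module (ZMod 2) W] [Finite W] [Symp W] (τ₀ τ : Type) [Fintype τ₀] [Fintype τ]
  (D : Dat W τ₀) (j : τ₀ → τ), Function.Injective j → (∀ s, D.t s ≠ 0) →
  ∀ (ι : Type) [Fintype ι] (A : ι → ι → ZMod 2) (B : ι → τ₀ → ZMod 2) (d : ι → ZMod 2), (∀ i i', A i i' = A i' i) →
  (∀ s, D.sp s + ∑ i, B i s + D.g s = 0) → ∑ i, d i + D.N = 1 →
  ∀ (N : ι → ι → ZMod 2) (h : ι → Option τ → ZMod 2), (∀ i i', i ≠ i' → N i i' = A i i') → (∀ i, h i none = d i) →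
  (∀ i s, h i (some (j s)) = B i s) →
  Nat.card (Sel (DJ D j) N h) = kc D A B d * Nat.card W

section families

variable {k : Type} [Field k] [Fintype k] {R : Type} [Fintype R] {n : R → ℕ}

/-- the bad primes of all the families -/
abbrev TQ (a : ∀ r, Fin (n r) → k[X]) : Type := Σ r, Tau (a r)

/-- the bad primes, as polynomials -/
noncomputable def QT (a : ∀ r, Fin (n r) → k[X]) (x : TQ a) : k[X] := QQ (a x.1) x.2

end families

/-- **JOB DX-ADJ.** The operators generate everything. (`theorem t_ADJ : S_ADJ`.)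
Proof. `φ = Pi.single (some ⟨r, s⟩) 1` gives the element of `∏ r, End (EW (n r))` with component `x ↦ om x t • t`, `t = E2v (p s) (q s)`, at `r` and zero at the other families (`σ` does not occur in `t`, `ks`). For every pair `i ≠ i'` there is
`s` with `{p s, q s} = {i, i'}` (`Geo.hN`, `hdeg`: the difference has positive degree, so a monic prime divisor, which is in `bpF`; `Geo.dvd_iff`). Products of two of them for `t`, `t'` with `om t t' = 1` give `x ↦ om x t' • t`; for all pairs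
`(i, i')`, `(l, l')` by chains; these span `End (EW (n r))` (the `E2v i i'` span `EW n`, the form is nondegenerate). Compare `Pool/Agent/Q182/JQ/ADJH.lean`, `Pool/Agent/Q149/JQ/ADJP.lean` (the same for hyperelliptic curves over the
rationals, spaces `VV n`). -/
def S_ADJ : Prop := ∀ (k : Type) [Field k] [Fintype k] (R : Type) [Fintype R] (n : R → ℕ) (a : ∀ r, Fin (n r) → k[X]) (N : R → ℕ)
  (H : ∀ r, Geo (a r) (N r)) (hn : ∀ r, Fact (Odd (n r))) (σ : ∀ r, Tau (a r) → ZMod 2),
  Adj2 (V := fun r => EW (n r)) fun r => DJ ((H r).dat (σ r)) (fun s => (⟨r, s⟩ : TQ a))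

/-! ### Part B: tuples of primes -/

section tuples

variable {k : Type} [Field k] [Fintype k] [DecidableEq k] {τ : Type} [Fintype τ]

/-- the label of a prime: the parity of the degree, and the symbols with the bad primes -/
noncomputable def lb (Q : τ → k[X]) (p : k[X]) : Option τ → ZMod 2 :=
  fun o => o.elim ((p.natDegree : ℕ) : ZMod 2) fun s => L p (Q s)

variable {ι : Type} [Fintype ι]

/-- the block of a tuple of primes -/
noncomputable def blk (Q : τ → k[X]) (lg : Finset ι) (T : ι → k[X]) : Bk (Option τ) {i // i ∉ lg} {i // i ∈ lg} where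
  A u u' := L (T u) (T u')
  B u i := L (T u) (T i)
  C i u := L (T i) (T u)
  hU u := lb Q (T u)
  hJ i := lb Q (T i)

/-- the symbols of the large primes -/
noncomputable def alp [LinearOrder ι] (lg : Finset ι) (T : ι → k[X]) : prs (univ : Finset {i // i ∈ lg}) → ZMod 2 :=
  fun e => L (T e.1.1) (T e.1.2)

/-- a cell of tuples of primes -/
structure CellX (Q : τ → k[X]) (𝒞 : ι → Finset k[X]) (lg : Finset ι) (Nd : ℕ) (η : ℝ) : Prop where
  hm : IsSquare (-1 : k)
  Qm : ∀ s, (Q s).Monic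
  Qi : ∀ s, Irreducible (Q s)
  Qj : Function.Injective Q
  mon : ∀ i, ∀ p ∈ 𝒞 i, p.Monic
  irr : ∀ i, ∀ p ∈ 𝒞 i, Irreducible p
  deg : ∀ T ∈ Fintype.piFinset 𝒞, ∑ i, (T i).natDegree + ∑ s, (Q s).natDegree ≤ Nd
  eta : ∀ j ∈ lg, ∀ M : k[X], M.Monic → 1 ≤ M.natDegree → M.natDegree ≤ Nd →
    (∀ (c : k) (h : k[X]), M ≠ C c * h ^ 2) →
    |∑ p ∈ 𝒞 j, (lam M p : ℝ)| + (Fintype.card ι + Fintype.card τ) ≤ η * (𝒞 j).card
  eta' : ∀ j ∈ lg, ((Fintype.card ι : ℝ) + Fintype.card τ) ≤ η * (𝒞 j).card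
  eta0 : 0 ≤ η
  sg : ∀ i, i ∉ lg → ∃ p, 𝒞 i = {p}
  dg : ∀ i, ∀ p ∈ 𝒞 i, ∀ p' ∈ 𝒞 i, p.natDegree = p'.natDegree

/-- tables: the symbols of the large primes with the bad primes, with the small primes, and with each other -/
abbrev TB (τ : Type) {ι : Type} [Fintype ι] [LinearOrder ι] (lg : Finset ι) : Type :=
  ({i // i ∈ lg} → τ → ZMod 2) × ({i // i ∈ lg} → {i // i ∉ lg} → ZMod 2) ×
    (prs (univ : Finset {i // i ∈ lg}) → ZMod 2)

/-- the table of a tuple -/
noncomputable def tab [LinearOrder ι] (Q : τ → k[X]) (lg : Finset ι) (T : ι → k[X]) : TB τ lg :=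
  (fun i s => L (T i) (Q s), fun i u => L (T i) (T u), alp lg T)

end tuples

/-- **JOB DX-TAB.** The tables are equidistributed in a cell. (`theorem t_TAB : S_TAB`.)
Proof. `1_F(t) = (1/#TB) ∑_c (∑_t' 1_F(t') sg ⟨c, t'⟩) sg ⟨c, t⟩` (characters of the finite vector space `TB`, `⟨c, t⟩` the sum of the products of the entries, `sg` of `Pool/Agent/Y164/PS/Sym.lean`). Sum over the `T` in `piFinset 𝒞` with
`ok Q T`, `t = tab Q lg T`: the term `c = 0` is the first term on the right, the others are at most `η * #piFinset 𝒞` each: for `c ≠ 0` there is `j ∈ lg` such that an entry with the index `j` is not zero; as function of the prime `T j = p`, for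
the others fixed, the sign is a constant times `sg (∑_(x ∈ S) L (R x) p) = lam (∏_(x ∈ S) R x) p`, `R = Sum.elim T Q`, `S ≠ ∅` the set of the `x ≠ inl j` with nonzero coefficient (`L_comm`, `L_prod_left`, `sg_L`, `prod_not_sq`): this is the proof of
`inner_bound`, `outer_bound` in `Pool/Agent/Y164/HG/Cell.lean` (copy; `sum_update`), where the coefficients are called `cf`. -/
def S_TAB : Prop := ∀ (k : Type) [Field k] [Fintype k] [DecidableEq k] (τ : Type) [Fintype τ] (Q : τ → k[X])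
  (ι : Type) [Fintype ι] [LinearOrder ι] (𝒞 : ι → Finset k[X]) (lg : Finset ι) (Nd : ℕ) (η : ℝ), CellX Q 𝒞 lg Nd η →
  ∀ F : TB τ lg → Prop,
  (((Fintype.piFinset 𝒞).filter fun T => ok Q T ∧ F (tab Q lg T)).card : ℝ) ≤
    (Nat.card {t : TB τ lg // F t} : ℝ) / Nat.card (TB τ lg) * (((Fintype.piFinset 𝒞).filter fun T => ok Q T).card : ℝ) +
    η * Nat.card (TB τ lg) * ((Fintype.piFinset 𝒞).card : ℝ)

/-- the regularity of a table (`par` the parities of the degrees of the large primes) -/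
def RegT {τ U J : Type} [Fintype τ] [Fintype U] [Fintype J] (A R : ℕ) (par : J → ZMod 2)
    (t : (J → τ → ZMod 2) × (J → U → ZMod 2)) : Prop :=
  (∀ μ : U → ZMod 2, μ ≠ 0 → A * Fintype.card U + R ≤
    (univ.filter fun i => (par i = 0 ∧ ∀ q, t.1 i q = 0) ∧ ∑ u, μ u * t.2 i u ≠ 0).card) ∧
  ∀ (b : ZMod 2) (φ : τ → ZMod 2), A * Fintype.card U + R ≤ (univ.filter fun i => par i = b ∧ t.1 i = φ).card

/-- **JOB DX-REG.** Almost all tables are regular. (`theorem t_REG : S_REG`.)
Proof. For `μ ≠ 0` fixed the number of the `i` in the first set is a sum of independent variables, one for each `i` with `par i = 0`, equal to one with probability `p = 2 ^ (-#τ - 1)`; for a sum `X` of `m` such variables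
`P (X < K) ≤ 2 ^ K * E 2 ^ (-X) = 2 ^ K (1 - p/2) ^ m`. With `K = A * #U + R ≤ (A + R) * s`, `m ≥ R' * s`: at most `(2 ^ (A + R) * (1 - p/2) ^ R') ^ s`; there are at most `2 ^ #U ≤ 2 ^ s` vectors `μ`. The same for the second condition
(`p = 2 ^ (-#τ)`, `2 * 2 ^ #τ` pairs `(b, φ)`). Choose `R'` with `2 ^ (A + R + 1) * (1 - p/2) ^ R' ≤ 1/2` for `p = 2 ^ (-#τ - 1)`, then `C = (1 + 2 * 2 ^ #τ) / δ + 1`. Compare `S_COL2`, theorem `Pool.Agent.Q269.DX.A58.t_COL2`
(`Pool/Agent/Q269/DX/A58/COL2.lean`, `A223/COL.lean`): the same kind of estimate for random colourings. -/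
def S_REG : Prop := ∀ (τ : Type) [Fintype τ] (A R : ℕ) (δ : ℝ), 0 < δ → ∃ (R' : ℕ) (C : ℝ), 1 ≤ R' ∧ 1 ≤ C ∧
  ∀ (U J : Type) [Fintype U] [Fintype J] (s : ℕ) (par : J → ZMod 2), 1 ≤ s → Fintype.card U ≤ s →
  (∀ b : ZMod 2, R' * s ≤ (univ.filter fun i => par i = b).card) → C * (1 / 2) ^ s ≤ 1 →
  (Nat.card {t : (J → τ → ZMod 2) × (J → U → ZMod 2) // ¬ RegT A R par t} : ℝ) ≤
    δ * Nat.card ((J → τ → ZMod 2) × (J → U → ZMod 2))

/-- **JOB DX-CEL.** The exceptional tuples in a cell. (`theorem t_CEL (h1 : S_TAB) (h2 : S_REG) : S_CEL`.)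
Proof. `S_REG` with `A`, `R`, `δ/4` gives `R'`, `C₀`; `C = C₀ + 8/δ + 2`. Given the cell: if no `T` satisfies `ok` there is nothing to prove. The block `blk Q lg T` is determined by the table `tab Q lg T` and by the cell: the small primes `T u`
are fixed (`sg`), the degrees too (`dg`), `L (T u) (T i) = L (T i) (T u)` (`L_comm`). So there are `B₀ : (first two components) → Bk …` with `blk Q lg T = B₀ (…)`, and `Reg (B₀ t) t₀ A R` follows from `RegT A R par t` (`ze = 0`; `lb Q p = 0` means `par = 0` and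
the symbols are 0). Apply `S_TAB` with `F t = Bad _ _ (B₀ (t.1, t.2.1)) t.2.2`: the number of the `t` with `F t` is at most (number of the irregular `(t.1, t.2.1)`) * `2 ^ #prs` + (number of the others) * `(δ/2) 2 ^ #prs`. And
`#TB ≤ 2 ^ ((#ι + #τ) ^ 2)`, `#piFinset ≤ 2 * #{ok}` (as `OK_ge` in `Pool/Agent/Y164/HG/*.lean` and its use in `cell_w`, `Pool/Agent/Q269/AV/Cw.lean`: the small primes are different from each other and from the `Q s` because some `T` is `ok`, and
`#lg * η ≤ 1/2`). -/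
def S_CEL : Prop := ∀ (τ : Type) [Fintype τ] (t₀ : Option τ)
  (Bad : ∀ (U J : Type) [Fintype U] [Fintype J] [LinearOrder J], Bk (Option τ) U J → (prs (univ : Finset J) → ZMod 2) → Prop)
  (A R : ℕ) (δ : ℝ), 0 < δ →
  (∀ (U J : Type) [Fintype U] [Fintype J] [LinearOrder J] (b : Bk (Option τ) U J), Reg b t₀ A R →
    (Nat.card {α : prs (univ : Finset J) → ZMod 2 // Bad U J b α} : ℝ) ≤ δ / 2 * 2 ^ (prs (univ : Finset J)).card) →
  ∃ (R' : ℕ) (C : ℝ), 1 ≤ R' ∧ 1 ≤ C ∧ ∀ (k : Type) [Field k] [Fintype k] [DecidableEq k] (Q : τ → k[X])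
    (ι : Type) [Fintype ι] [LinearOrder ι] (𝒞 : ι → Finset k[X]) (lg : Finset ι) (Nd : ℕ) (η : ℝ) (s : ℕ),
    CellX Q 𝒞 lg Nd η → 1 ≤ s → Fintype.card ι - lg.card ≤ s →
    (∀ T ∈ Fintype.piFinset 𝒞, ∀ b : ZMod 2, R' * s ≤ (lg.filter fun i => (((T i).natDegree : ℕ) : ZMod 2) = b).card) →
    C * (1 / 2) ^ s ≤ 1 → η * (C * 2 ^ ((Fintype.card ι + Fintype.card τ) ^ 2)) ≤ 1 →
    (((Fintype.piFinset 𝒞).filter fun T => ok Q T ∧ Bad _ _ (blk Q lg T) (alp lg T)).card : ℝ) ≤
      δ * (((Fintype.piFinset 𝒞).filter fun T => ok Q T).card : ℝ)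

/-- typical polynomials: not too many prime factors, few of degree less than `z`, many of degree at least `z` of both parities -/
def tyx {k : Type} [Field k] [Fintype k] [DecidableEq k] (R A l s z : ℕ) (D : k[X]) : Prop :=
  (pf D).card ≤ A * l ∧ sm z D ≤ s ∧ ∀ b : ZMod 2, R * s ≤
    ((pf D).filter fun P => z ≤ P.natDegree ∧ ((P.natDegree : ℕ) : ZMod 2) = b).card

/-- **JOB DX-TYP.** The choice of the parameters; almost all polynomials are typical. (`theorem t_TYP : S_TYP`.)
Proof. `l = Nat.log 2 n`, `s = l / c` with a large constant `c`, `z = K * l ^ 2` with a large constant `K` (so that `et Q n z * C * 2 ^ ((A l + #τ) ^ 2) ≤ 1`: `et` is `O(n ^ 2) / 2 ^ z`, `n < 2 ^ (l + 1)`, `Pool/Agent/Y164/HG/Lvl.lean`). All polynomials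
counted are monic of degree `n` (`Sf k n`, at most `q ^ n` in number, `q = #k`; the number of the monic polynomials of degree `n` divisible by a given monic polynomial of degree `d ≤ n` is `q ^ (n - d)`; the number of the monic primes of degree `d` is between
`(q ^ d - 2 q ^ (d/2)) / d`, `card_Pr_ge` in `Pool/Agent/Y164/PS/Chr.lean`, and `q ^ d / d`). (1) the mean of the number of prime factors is at most `∑_(d ≤ n) 1/d ≤ 1 + log n ≤ l + 2`: by Markov's inequality at most `3/A * q^n` (up to constants) have more than `A l`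
prime factors: choose `A` large in terms of `δ`. (2) the mean of `sm z D` is at most `1 + log z = O(log l)`, small compared with `s`: Markov. (3) for a parity `b` let `X D` be the number of the prime factors `P` of `D` with `z ≤ deg P ≤ n/2`, `deg P = b` modulo 2. For monic
`D` of degree `n`: mean `M = ∑ q ^ (-deg P)`, and the variance is at most `M` because the events `P ∣ D`, `P' ∣ D`, `P ≠ P'`, are exactly independent (`deg P + deg P' ≤ n`): Chebyshev: at most `4/M * q^n` polynomials have `X D ≤ M/2`, and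
`M ≥ c' (log n - log z) - 1 → ∞`, `M / 2 ≥ R * s` for `c` large. (The existing estimates `nontyp_w`, `params_w` in `Pool/Agent/Q269/AV/Nt.lean`, `Pw.lean` with `w0 = 1` can be used for (1), (2).) -/
def S_TYP : Prop := ∀ (k : Type) [Field k] [Fintype k] [DecidableEq k], ringChar k ≠ 2 → 4 ≤ Fintype.card k →
  ∀ (τ : Type) [Fintype τ] (Q : τ → k[X]) (R : ℕ) (C δ : ℝ), 0 ≤ C → 0 < δ → ∃ A : ℕ, ∀ᶠ n : ℕ in atTop, ∃ l s z : ℕ,
  1 ≤ s ∧ 2 ≤ z ∧ C * (1 / 2) ^ s ≤ 1 ∧ (∀ m ≤ A * l, et Q n z * (C * 2 ^ ((m + Fintype.card τ) ^ 2)) ≤ 1) ∧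
  (((Sf k n).filter fun D => ¬ tyx R A l s z D).card : ℝ) ≤ δ * (Fintype.card k : ℝ) ^ n

/-- **JOB DX-ANA.** From the cells to all polynomials. (`theorem t_ANA (h1 : S_CEL) (h2 : S_TYP) : S_ANA`.)
Proof. `S_CEL` with `δ/2` (and the hypothesis for `ε = δ/4`) gives `R'`, `C`; `S_TYP` with `R'`, `C`, `δ/2` gives `A`. For large `n` with `l`, `s`, `z`: for each `m ≤ A l` sum over the tuples `T : Fin m → k[X]` in `Tp k (Fin m) n` (`Pool/Agent/Y164/PS/Fib.lean`) with `sm ≤ s` and with the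
condition on the parities, which are unions of cells `cell z T`, `lgs z T` (`cells_nonneg`, `Xt_closed`, `Xt_self`, `cell_deg`, `lgs_eq`); `cell_inst` in `Pool/Agent/Y164/HG/Lvl.lean` (for any `D : Dat W τ`, for instance `W = PUnit` or `EW 3`… or copy its proof) gives `CellX Q (cell z T) (lgs z T) (n + dQ Q) (et Q n z)`;
in a cell `ok Q T ∧ G (∏ T)` implies `ok ∧ Bad`, so the number is at most `δ/2` times the number of the `ok` tuples; `tuple_sum`/`conv` and `ok_iff` turn the sums over tuples into `m!` times sums over polynomials. This is `lvl_tuples_a`, `lvl_a`, `step_a` and the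
following theorems in `Pool/Agent/Q269/MF/Lv.lean`, resp. `lvl_tuples_w`, … in `Pool/Agent/Q269/AV/Lw.lean`, `Mw.lean` (there the condition `cla` and the factor `ℓ ^ #τ` are to be dropped, `ι = Fin m`), and `Y164/HG/Lvl2.lean`, `Main.lean`. -/
def S_ANA : Prop := ∀ (τ : Type) [Fintype τ] (t₀ : Option τ)
  (Bad : ∀ (U J : Type) [Fintype U] [Fintype J] [LinearOrder J], Bk (Option τ) U J → (prs (univ : Finset J) → ZMod 2) → Prop),
  (∀ ε : ℝ, 0 < ε → ∃ A R : ℕ, ∀ (U J : Type) [Fintype U] [Fintype J] [LinearOrder J] (b : Bk (Option τ) U J), Reg b t₀ A R →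
    (Nat.card {α : prs (univ : Finset J) → ZMod 2 // Bad U J b α} : ℝ) ≤ ε * 2 ^ (prs (univ : Finset J)).card) →
  ∀ (k : Type) [Field k] [Fintype k] [DecidableEq k], ringChar k ≠ 2 → IsSquare (-1 : k) → 4 ≤ Fintype.card k →
  ∀ Q : τ → k[X], Fam Q → ∀ G : k[X] → Prop,
  (∀ (m : ℕ) (T : Fin m → k[X]) (lg : Finset (Fin m)), Fam (Sum.elim T Q) → G (∏ i, T i) → Bad _ _ (blk Q lg T) (alp lg T)) →
  ∀ δ : ℝ, 0 < δ → ∀ᶠ n : ℕ in atTop, (((Sf k n).filter fun D => nb Q D ∧ G D).card : ℝ) ≤ δ * (Fintype.card k : ℝ) ^ n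

/-! ### Part C: polynomials -/

section poly

variable {k : Type} [Field k] [Fintype k] {R : Type} [Fintype R] {n : R → ℕ}

/-- the labels of the prime divisors of `D` -/
noncomputable def lbD (a : ∀ r, Fin (n r) → k[X]) (D : k[X]) (P : Ip D) : Option (TQ a) → ZMod 2 := lb (QT a) P.1

/-- the product of the prime divisors `P` of `D` with `∑ i, e i * τ P i ≠ 0` -/
noncomputable def dv {D : k[X]} {M : Type} [Fintype M] (e : M → ZMod 2) (τ : Ip D → M → ZMod 2) : k[X] :=
  ∏ P : Ip D, if ∑ i, e i * τ P i = 0 then 1 else P.1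

end poly

/-- **JOB DX-INN.** The moments over the divisors of almost all polynomials.
(`theorem t_INN (h1 : S_ANA) (h2 : S_OKD) (h3 : S_SLJ) (h4 : S_ADJ) (h5 : Pool.Agent.Q269.SX.S_KDR) : S_INN`; `divm : S_DIVM` is in `Fa.lean`.)
Proof. `S_ANA` with `τ = TQ a`, `Q = QT a` (`Fam`: `Geo.fam`, coprimality), `t₀ = none`, and `Bad U J b α` the inequality
`ε (2 ^ #Nn) ^ (#U + #J) < |∑ τ with lbs b.h τ = ρ, (X α τ - ∏ ∏ 2 ^ …)|`, `X` as in `S_DIVM` with `κ j = R`, `V j r = EW (n r)`, `D j r = DJ ((H r).dat σ_(j,r)) (fun s => ⟨r, s⟩)`, `σ_(j,r) s = lbf e ρ j (some ⟨r, s⟩) + (H r).comb.gg s` (`OKD`: `(H r).dat σ` has `g = comb.gg`, `N = N r`,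
`t s = E2v (p s) (q s) ≠ 0`; `Adj2`: `S_ADJ` (for each `j`)). The hypothesis of `S_ANA` is `divm` (for `ε' ≤ ε` the set for `ε` is contained in the set for `ε'`). The property `G D` is the inequality of the statement (for `D ∈ Dn`; `Dn (∏ r, Del (a r)) m` is the set of the
`D ∈ Sf k m` with `nb (QT a) D`, see `Pool/Agent/Q269/SX/Lv.lean` or `AsmG.lean`). For a family `T : Fin m → k[X]` with `D = ∏ T`: `Ip D ≃ Fin m ≃ {i ∉ lg} ⊕ {i ∈ lg}` turns the `τ` into each other, `lbs`, the number `#U + #J = #(Ip D)`; for given `τ`, `j`, `r`: the restricted block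
is that of the subfamily `T' : {p // act e τ j p} → k[X]`, `∏ T' = dv (e j) τ`, `S_SLJ` (with `A = AT T'`, `B = BT (QQ (a r)) T'`, `d = deg`; its hypotheses: the sum of the labels of `T'` is `lbf e ρ j`) and `S_KDR` (second to last part) give `#Sel = kD (H r) (∏ T') * #EW`. -/
def S_INN : Prop := ∀ (k : Type) [Field k] [Fintype k] (R : Type) [Fintype R] (n : R → ℕ) (a : ∀ r, Fin (n r) → k[X]) (N : R → ℕ)
  (H : ∀ r, Geo (a r) (N r)), IsSquare (-1 : k) → ringChar k ≠ 2 → (∀ r r', r ≠ r' → IsCoprime (Del (a r)) (Del (a r'))) →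
  ∀ (M J : Type) [Fintype M] [Fintype J] (e : J → M → ZMod 2), Function.Injective e → (∀ j, e j ≠ 0) →
  ∀ ρ : M → Option (TQ a) → ZMod 2, (∀ j r, lbf e ρ j none + (N r : ZMod 2) = 1) →
  ∀ (μ : J → R → ℕ) (ε : ℝ), 0 < ε → ∀ᶠ m : ℕ in atTop,
  (((Dn (∏ r, Del (a r)) m).filter fun D => ε * (2 ^ Fintype.card M : ℝ) ^ Fintype.card (Ip D) <
    |∑ τ ∈ (univ : Finset (Ip D → M → ZMod 2)).filter (fun τ => lbs (lbD a D) τ = ρ),
      (∏ j, ∏ r, ∏ i ∈ range (μ j r), ((kD (H r) (dv (e j) τ) : ℝ) - 2 ^ i) -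
        ∏ j, ∏ r, (2 : ℝ) ^ (μ j r * (μ j r + 1) / 2))|).card : ℝ) ≤ ε * (Fintype.card k : ℝ) ^ m

/-- **JOB DX-SPN.** The labels of the prime divisors of almost all polynomials span. (`theorem t_SPN (h1 : S_ANA) : S_SPN`.)
Proof. `S_ANA` with `τ = TQ a`, `Q = QT a`, `Bad U J b α = ¬ Spn b.h`: `Reg b t₀ 0 1` implies `Spn b.h` (every label occurs: apply `∑ t, l t * h p t = 0` to the primes with label `Pi.single t 1`); transport as in INN. -/
def S_SPN : Prop := ∀ (k : Type) [Field k] [Fintype k] (R : Type) [Fintype R] (n : R → ℕ) (a : ∀ r, Fin (n r) → k[X]) (N : R → ℕ)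
  (H : ∀ r, Geo (a r) (N r)), IsSquare (-1 : k) → ringChar k ≠ 2 → (∀ r r', r ≠ r' → IsCoprime (Del (a r)) (Del (a r'))) →
  ∀ ε : ℝ, 0 < ε → ∀ᶠ m : ℕ in atTop,
  (((Dn (∏ r, Del (a r)) m).filter fun D => ¬ Spn (lbD a D)).card : ℝ) ≤ ε * (Fintype.card k : ℝ) ^ m

/-- **JOB DX-CLN.** The number of the families of divisors with given labels. (`theorem t_CLN : S_CLN`.)
Proof. The linear map `(P → M → F2) → (M → s → F2)`, `τ ↦ lbs h τ` is surjective because the labels span (the transposed map is injective). -/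
def S_CLN : Prop := ∀ (P M s : Type) [Fintype P] [Fintype M] [Fintype s] (h : P → s → ZMod 2), Spn h → ∀ ρ : M → s → ZMod 2,
  ((univ : Finset (P → M → ZMod 2)).filter fun τ => lbs h τ = ρ).card * 2 ^ (Fintype.card M * Fintype.card s) =
    2 ^ (Fintype.card P * Fintype.card M)

end Pool.Agent.Q269.DX
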